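import Pool.Agent.H.MP_c30e5d_gt.Defs

/-!
# Homotopy retracts of complexes of bimodules and their triply graded homology
-/

namespace Pool.Agent.H.MP_c30e5d_gt

open MvPolynomial

variable {k : Type} [Field k] {m : ℕ}

/-- `C` is a homotopy retract of `C'` -/
structure BRet (C C' : BimComplex k m) where
  f : C.M →ₗ[RR k m] C'.M
  g : C'.M →ₗ[RR k m] C.M
  h : C.M →ₗ[RR k m] C.M
  fr : ∀ j z, f (C.rmul j z) = C'.rmul j (f z)
  gr : ∀ j z, g (C'.rmul j z) = C.rmul j (g z)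
  hr : ∀ j z, h (C.rmul j z) = C.rmul j (h z)
  fd : ∀ z, f (C.d z) = C'.d (f z)
  gd : ∀ z, g (C'.d z) = C.d (g z)
  fpr : ∀ e z, f (C.pr e z) = C'.pr e (f z)
  gpr : ∀ e z, g (C'.pr e z) = C.pr e (g z)
  hpr : ∀ e z, C.pr e (h z) = h (C.pr (e + 1) z)
  hpr0 : ∀ z, h (C.pr 0 z) = 0
  hom : ∀ z, z - g (f z) = C.d (h z) + h (C.d z)

namespace BimComplex

/-- componentwise map on Koszul chains -/
noncomputable def kosMap {C C' : BimComplex k m} (f : C.M →ₗ[RR k m] C'.M) : C.Kos →ₗ[RR k m] C'.Kos where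
  toFun c S := f (c S)
  map_add' c c' := by ext S; simp
  map_smul' a c := by ext S; simp

variable {C C' : BimComplex k m} (f : C.M →ₗ[RR k m] C'.M)

theorem kosMap_apply (c : C.Kos) (S : Finset (Fin (m + 1))) : kosMap f c S = f (c S) := rfl

theorem kosMap_kosD (hf : ∀ j z, f (C.rmul j z) = C'.rmul j (f z)) (c : C.Kos) :
    kosMap f (C.kosD c) = C'.kosD (kosMap f c) := by
  ext S
  show f (∑ j ∈ Sᶜ, (-1 : ℤ) ^ (S.filter (· < j)).card •
      ((X j : RR k m) • c (insert j S) - C.rmul j (c (insert j S)))) =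
    ∑ j ∈ Sᶜ, (-1 : ℤ) ^ (S.filter (· < j)).card •
      ((X j : RR k m) • f (c (insert j S)) - C'.rmul j (f (c (insert j S))))
  rw [map_sum]
  refine Finset.sum_congr rfl fun j _ => ?_
  rw [map_zsmul, map_sub, map_smul, hf]

theorem kosMap_deg {p : ℕ} {c : C.Kos} (hc : c ∈ C.kosDeg p) : kosMap f c ∈ C'.kosDeg p := by
  intro S hS
  rw [kosMap_apply, hc S hS, map_zero]

theorem kosMap_hochZ (hf : ∀ j z, f (C.rmul j z) = C'.rmul j (f z)) {p : ℕ} {c : C.Kos}
    (hc : c ∈ C.hochZ p) : kosMap f c ∈ C'.hochZ p := by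
  refine ⟨?_, kosMap_deg f hc.2⟩
  have h1 : C.kosD c = 0 := hc.1
  show C'.kosD (kosMap f c) = 0
  rw [← kosMap_kosD f hf, h1, map_zero]

theorem kosMap_hochB (hf : ∀ j z, f (C.rmul j z) = C'.rmul j (f z)) {p : ℕ} {c : C.Kos}
    (hc : c ∈ C.hochB p) : kosMap f c ∈ C'.hochB p := by
  obtain ⟨b, hb, rfl⟩ := hc
  exact ⟨kosMap f b, kosMap_deg f hb, (kosMap_kosD f hf b).symm⟩

theorem kosMap_kosd (hf : ∀ z, f (C.d z) = C'.d (f z)) (c : C.Kos) :
    kosMap f (C.kosd c) = C'.kosd (kosMap f c) := by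
  ext S
  exact hf (c S)

theorem kosMap_homDeg (hf : ∀ e z, f (C.pr e z) = C'.pr e (f z)) {e : ℕ} {c : C.Kos}
    (hc : c ∈ C.homDeg e) : kosMap f c ∈ C'.homDeg e := by
  intro S
  rw [kosMap_apply, ← hf, hc S]

theorem kosMap_homDegPred (hf : ∀ e z, f (C.pr e z) = C'.pr e (f z)) {e : ℕ} {c : C.Kos}
    (hc : c ∈ C.homDegPred e) : kosMap f c ∈ C'.homDegPred e := by
  rcases e with _ | e
  · have : c = 0 := hc
    rw [this, map_zero]
    exact Submodule.zero_mem _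
  · exact kosMap_homDeg f hf hc

theorem hhh_nontrivial_iff (C : BimComplex k m) (p e : ℕ) :
    Nontrivial (C.HHHof p e) ↔ ∃ z ∈ C.hhhZ p e, z ∉ C.hhhB p e := by
  constructor
  · intro hn
    by_contra hcon
    push Not at hcon
    have htop : (C.hhhB p e).submoduleOf (C.hhhZ p e) = ⊤ := by
      rw [eq_top_iff]
      rintro ⟨z, hz⟩ _
      exact hcon z hz
    have := (Submodule.Quotient.nontrivial_iff).mp hn
    exact this htop
  · rintro ⟨z, hz, hz'⟩
    refine (Submodule.Quotient.nontrivial_iff).mpr ?_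
    intro htop
    have : (⟨z, hz⟩ : C.hhhZ p e) ∈ (C.hhhB p e).submoduleOf (C.hhhZ p e) := by
      rw [htop]; trivial
    exact hz' this

end BimComplex

open BimComplex

/-- a homotopy retract of a complex with zero homology has zero homology -/
theorem BRet.nontrivial {C C' : BimComplex k m} (R : BRet C C') (p e : ℕ)
    (hn : Nontrivial (C.HHHof p e)) : Nontrivial (C'.HHHof p e) := by
  obtain ⟨z, hz, hz'⟩ := (BimComplex.hhh_nontrivial_iff C p e).mp hn
  refine (BimComplex.hhh_nontrivial_iff C' p e).mpr ?_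
  obtain ⟨⟨hz1, hz2⟩, hz3⟩ := hz
  have hz3' : C.kosd z ∈ C.hochB p := hz3
  refine ⟨kosMap R.f z, ⟨⟨kosMap_hochZ R.f R.fr hz1, kosMap_homDeg R.f R.fpr hz2⟩, ?_⟩, ?_⟩
  · show C'.kosd (kosMap R.f z) ∈ C'.hochB p
    rw [← kosMap_kosd R.f R.fd]
    exact kosMap_hochB R.f R.fr hz3'
  · intro hcon
    apply hz'
    have h1 : kosMap R.g (kosMap R.f z) ∈ C.hhhB p e := by
      obtain ⟨a, ⟨a', ha', rfl⟩, b, hb, hab⟩ := Submodule.mem_sup.mp hcon
      rw [← hab, map_add, kosMap_kosd R.g R.gd]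
      exact Submodule.add_mem_sup ⟨kosMap R.g a', ⟨kosMap_hochZ R.g R.gr ha'.1,
        kosMap_homDegPred R.g R.gpr ha'.2⟩, rfl⟩ (kosMap_hochB R.g R.gr hb)
    have h2 : z - kosMap R.g (kosMap R.f z) ∈ C.hhhB p e := by
      have e1 : z - kosMap R.g (kosMap R.f z) = C.kosd (kosMap R.h z) + kosMap R.h (C.kosd z) := by
        ext S
        exact R.hom (z S)
      rw [e1]
      refine Submodule.add_mem_sup ⟨kosMap R.h z, ⟨kosMap_hochZ R.h R.hr hz1, ?_⟩, rfl⟩
        (kosMap_hochB R.h R.hr hz3')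
      rcases e with _ | e
      · show kosMap R.h z = 0
        ext S
        rw [kosMap_apply, ← hz2 S]
        exact R.hpr0 _
      · intro S
        rw [kosMap_apply, R.hpr, hz2 S]
    have := Submodule.add_mem _ h2 h1
    rwa [sub_add_cancel] at this

end Pool.Agent.H.MP_c30e5d_gt
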