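import Pool.Agent.H.MP_c30e5d_gt.R3.Maps

/-!
# Reidemeister 3: the identities
-/

namespace Pool.Agent.H.MP_c30e5d_gt.R3

set_option linter.all false
set_option linter.unusedSimpArgs false
set_option linter.unusedVariables false

variable {A : Type} [CommRing A] {M : Type} [AddCommGroup M] [Module A M]

section
variable (x y z d w : M →ₗ[A] M)

/-- projections: `f` on the `B`-part, `g` on the other part -/
def opR (f g : M →ₗ[A] M) : T M →ₗ[A] T M where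
  toFun v := ((f v.1.1, f v.1.2), g v.2)
  map_add' v w := by ext <;> simp
  map_smul' c v := by ext <;> simp

theorem opR_apply (f g : M →ₗ[A] M) (v : T M) :
    opR f g v = ((f v.1.1, f v.1.2), g v.2) := rfl

/-- projections on threefold crossings -/
def pr3 (f₀ f₁ f₂ f₃ : M →ₗ[A] M) : T (T (T M)) →ₗ[A] T (T (T M)) :=
  opR (opR (opR f₀ f₁) (opR f₁ f₂)) (opR (opR f₁ f₂) (opR f₂ f₃))

/-! operators on the words `i`, `ji`, `iji` and `j`, `ij`, `jij` -/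

def xi (x y z : M →ₗ[A] M) : T M →ₗ[A] T M := opP (x) (y)
def yi (x y z : M →ₗ[A] M) : T M →ₗ[A] T M := opQ (x) (y)
def zi (x y z : M →ₗ[A] M) : T M →ₗ[A] T M := opO (z)
def di (x y z d : M →ₗ[A] M) : T M →ₗ[A] T M := opD (x) (d)
def wi (w : M →ₗ[A] M) : T M →ₗ[A] T M := opO (w)
def xji (x y z : M →ₗ[A] M) : T (T M) →ₗ[A] T (T M) := opO (xi x y z)
def yji (x y z : M →ₗ[A] M) : T (T M) →ₗ[A] T (T M) := opP (yi x y z) (zi x y z)
def zji (x y z : M →ₗ[A] M) : T (T M) →ₗ[A] T (T M) := opQ (yi x y z) (zi x y z)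
def dji (x y z d : M →ₗ[A] M) : T (T M) →ₗ[A] T (T M) := opD (yi x y z) (di x y z d)
def wji (w : M →ₗ[A] M) : T (T M) →ₗ[A] T (T M) := opO (wi w)
def xiji (x y z : M →ₗ[A] M) : T (T (T M)) →ₗ[A] T (T (T M)) := opP (xji x y z) (yji x y z)
def yiji (x y z : M →ₗ[A] M) : T (T (T M)) →ₗ[A] T (T (T M)) := opQ (xji x y z) (yji x y z)
def ziji (x y z : M →ₗ[A] M) : T (T (T M)) →ₗ[A] T (T (T M)) := opO (zji x y z)
def diji (x y z d : M →ₗ[A] M) : T (T (T M)) →ₗ[A] T (T (T M)) := opD (xji x y z) (dji x y z d)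
def wiji (w : M →ₗ[A] M) : T (T (T M)) →ₗ[A] T (T (T M)) := opO (wji w)
def xj (x y z : M →ₗ[A] M) : T M →ₗ[A] T M := opO (x)
def yj (x y z : M →ₗ[A] M) : T M →ₗ[A] T M := opP (y) (z)
def zj (x y z : M →ₗ[A] M) : T M →ₗ[A] T M := opQ (y) (z)
def dj (x y z d : M →ₗ[A] M) : T M →ₗ[A] T M := opD (y) (d)
def wj (w : M →ₗ[A] M) : T M →ₗ[A] T M := opO (w)
def xij (x y z : M →ₗ[A] M) : T (T M) →ₗ[A] T (T M) := opP (xj x y z) (yj x y z)
def yij (x y z : M →ₗ[A] M) : T (T M) →ₗ[A] T (T M) := opQ (xj x y z) (yj x y z)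
def zij (x y z : M →ₗ[A] M) : T (T M) →ₗ[A] T (T M) := opO (zj x y z)
def dij (x y z d : M →ₗ[A] M) : T (T M) →ₗ[A] T (T M) := opD (xj x y z) (dj x y z d)
def wij (w : M →ₗ[A] M) : T (T M) →ₗ[A] T (T M) := opO (wj w)
def xjij (x y z : M →ₗ[A] M) : T (T (T M)) →ₗ[A] T (T (T M)) := opO (xij x y z)
def yjij (x y z : M →ₗ[A] M) : T (T (T M)) →ₗ[A] T (T (T M)) := opP (yij x y z) (zij x y z)
def zjij (x y z : M →ₗ[A] M) : T (T (T M)) →ₗ[A] T (T (T M)) := opQ (yij x y z) (zij x y z)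
def djij (x y z d : M →ₗ[A] M) : T (T (T M)) →ₗ[A] T (T (T M)) := opD (yij x y z) (dij x y z d)
def wjij (w : M →ₗ[A] M) : T (T (T M)) →ₗ[A] T (T (T M)) := opO (wij w)
end

variable {x y z d w : M →ₗ[A] M}

theorem G1_x (hyx : ∀ n, y (x n) = x (y n)) (hzx : ∀ n, z (x n) = x (z n)) (hzy : ∀ n, z (y n) = y (z n)) (v : T (T (T M))) :
    G1 x y z (xiji x y z v) = xjij x y z (G1 x y z v) := by
  ext <;> simp only [G1_apply, xi, yi, zi, di, wi, xji, yji, zji, dji, wji, xiji, yiji, ziji, diji, wiji, xj, yj, zj, dj, wj, xij, yij, zij, dij, wij, xjij, yjij, zjij, djij, wjij, opP_apply, opQ_apply, opO_apply, opD_apply, map_add, map_neg, map_sub, map_zero, Prod.fst_add, Prod.snd_add, Prod.fst_neg, Prod.snd_neg, Prod.fst_sub, Prod.snd_sub, Prod.fst_zero, Prod.snd_zero, neg_zero, sub_zero, add_zero, zero_add, hyx, hzx, hzy] <;> abel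

theorem G1_y (hyx : ∀ n, y (x n) = x (y n)) (hzx : ∀ n, z (x n) = x (z n)) (hzy : ∀ n, z (y n) = y (z n)) (v : T (T (T M))) :
    G1 x y z (yiji x y z v) = yjij x y z (G1 x y z v) := by
  ext <;> simp only [G1_apply, xi, yi, zi, di, wi, xji, yji, zji, dji, wji, xiji, yiji, ziji, diji, wiji, xj, yj, zj, dj, wj, xij, yij, zij, dij, wij, xjij, yjij, zjij, djij, wjij, opP_apply, opQ_apply, opO_apply, opD_apply, map_add, map_neg, map_sub, map_zero, Prod.fst_add, Prod.snd_add, Prod.fst_neg, Prod.snd_neg, Prod.fst_sub, Prod.snd_sub, Prod.fst_zero, Prod.snd_zero, neg_zero, sub_zero, add_zero, zero_add, hyx, hzx, hzy] <;> abel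

theorem G1_z (hyx : ∀ n, y (x n) = x (y n)) (hzx : ∀ n, z (x n) = x (z n)) (hzy : ∀ n, z (y n) = y (z n)) (v : T (T (T M))) :
    G1 x y z (ziji x y z v) = zjij x y z (G1 x y z v) := by
  ext <;> simp only [G1_apply, xi, yi, zi, di, wi, xji, yji, zji, dji, wji, xiji, yiji, ziji, diji, wiji, xj, yj, zj, dj, wj, xij, yij, zij, dij, wij, xjij, yjij, zjij, djij, wjij, opP_apply, opQ_apply, opO_apply, opD_apply, map_add, map_neg, map_sub, map_zero, Prod.fst_add, Prod.snd_add, Prod.fst_neg, Prod.snd_neg, Prod.fst_sub, Prod.snd_sub, Prod.fst_zero, Prod.snd_zero, neg_zero, sub_zero, add_zero, zero_add, hyx, hzx, hzy] <;> abel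

theorem G1_w (hwx : ∀ n, w (x n) = x (w n)) (hwy : ∀ n, w (y n) = y (w n)) (hwz : ∀ n, w (z n) = z (w n)) (v : T (T (T M))) :
    G1 x y z (wiji w v) = wjij w (G1 x y z v) := by
  ext <;> simp only [G1_apply, xi, yi, zi, di, wi, xji, yji, zji, dji, wji, xiji, yiji, ziji, diji, wiji, xj, yj, zj, dj, wj, xij, yij, zij, dij, wij, xjij, yjij, zjij, djij, wjij, opP_apply, opQ_apply, opO_apply, opD_apply, map_add, map_neg, map_sub, map_zero, Prod.fst_add, Prod.snd_add, Prod.fst_neg, Prod.snd_neg, Prod.fst_sub, Prod.snd_sub, Prod.fst_zero, Prod.snd_zero, neg_zero, sub_zero, add_zero, zero_add, hwx, hwy, hwz] <;> abel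

theorem G1_d (hyx : ∀ n, y (x n) = x (y n)) (hzx : ∀ n, z (x n) = x (z n)) (hzy : ∀ n, z (y n) = y (z n))
    (hdx : ∀ n, d (x n) = x (d n)) (hdy : ∀ n, d (y n) = y (d n)) (hdz : ∀ n, d (z n) = z (d n)) (v : T (T (T M))) :
    G1 x y z (diji x y z d v) = djij x y z d (G1 x y z v) := by
  ext <;> simp only [G1_apply, xi, yi, zi, di, wi, xji, yji, zji, dji, wji, xiji, yiji, ziji, diji, wiji, xj, yj, zj, dj, wj, xij, yij, zij, dij, wij, xjij, yjij, zjij, djij, wjij, opP_apply, opQ_apply, opO_apply, opD_apply, map_add, map_neg, map_sub, map_zero, Prod.fst_add, Prod.snd_add, Prod.fst_neg, Prod.snd_neg, Prod.fst_sub, Prod.snd_sub, Prod.fst_zero, Prod.snd_zero, neg_zero, sub_zero, add_zero, zero_add, hyx, hzx, hzy, hdx, hdy, hdz] <;> abel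

theorem G2_x (hyx : ∀ n, y (x n) = x (y n)) (hzx : ∀ n, z (x n) = x (z n)) (hzy : ∀ n, z (y n) = y (z n)) (v : T (T (T M))) :
    G2 x y z (xjij x y z v) = xiji x y z (G2 x y z v) := by
  ext <;> simp only [G2_apply, xi, yi, zi, di, wi, xji, yji, zji, dji, wji, xiji, yiji, ziji, diji, wiji, xj, yj, zj, dj, wj, xij, yij, zij, dij, wij, xjij, yjij, zjij, djij, wjij, opP_apply, opQ_apply, opO_apply, opD_apply, map_add, map_neg, map_sub, map_zero, Prod.fst_add, Prod.snd_add, Prod.fst_neg, Prod.snd_neg, Prod.fst_sub, Prod.snd_sub, Prod.fst_zero, Prod.snd_zero, neg_zero, sub_zero, add_zero, zero_add, hyx, hzx, hzy] <;> abel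

theorem G2_y (hyx : ∀ n, y (x n) = x (y n)) (hzx : ∀ n, z (x n) = x (z n)) (hzy : ∀ n, z (y n) = y (z n)) (v : T (T (T M))) :
    G2 x y z (yjij x y z v) = yiji x y z (G2 x y z v) := by
  ext <;> simp only [G2_apply, xi, yi, zi, di, wi, xji, yji, zji, dji, wji, xiji, yiji, ziji, diji, wiji, xj, yj, zj, dj, wj, xij, yij, zij, dij, wij, xjij, yjij, zjij, djij, wjij, opP_apply, opQ_apply, opO_apply, opD_apply, map_add, map_neg, map_sub, map_zero, Prod.fst_add, Prod.snd_add, Prod.fst_neg, Prod.snd_neg, Prod.fst_sub, Prod.snd_sub, Prod.fst_zero, Prod.snd_zero, neg_zero, sub_zero, add_zero, zero_add, hyx, hzx, hzy] <;> abel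

theorem G2_z (hyx : ∀ n, y (x n) = x (y n)) (hzx : ∀ n, z (x n) = x (z n)) (hzy : ∀ n, z (y n) = y (z n)) (v : T (T (T M))) :
    G2 x y z (zjij x y z v) = ziji x y z (G2 x y z v) := by
  ext <;> simp only [G2_apply, xi, yi, zi, di, wi, xji, yji, zji, dji, wji, xiji, yiji, ziji, diji, wiji, xj, yj, zj, dj, wj, xij, yij, zij, dij, wij, xjij, yjij, zjij, djij, wjij, opP_apply, opQ_apply, opO_apply, opD_apply, map_add, map_neg, map_sub, map_zero, Prod.fst_add, Prod.snd_add, Prod.fst_neg, Prod.snd_neg, Prod.fst_sub, Prod.snd_sub, Prod.fst_zero, Prod.snd_zero, neg_zero, sub_zero, add_zero, zero_add, hyx, hzx, hzy] <;> abel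

theorem G2_w (hwx : ∀ n, w (x n) = x (w n)) (hwy : ∀ n, w (y n) = y (w n)) (hwz : ∀ n, w (z n) = z (w n)) (v : T (T (T M))) :
    G2 x y z (wjij w v) = wiji w (G2 x y z v) := by
  ext <;> simp only [G2_apply, xi, yi, zi, di, wi, xji, yji, zji, dji, wji, xiji, yiji, ziji, diji, wiji, xj, yj, zj, dj, wj, xij, yij, zij, dij, wij, xjij, yjij, zjij, djij, wjij, opP_apply, opQ_apply, opO_apply, opD_apply, map_add, map_neg, map_sub, map_zero, Prod.fst_add, Prod.snd_add, Prod.fst_neg, Prod.snd_neg, Prod.fst_sub, Prod.snd_sub, Prod.fst_zero, Prod.snd_zero, neg_zero, sub_zero, add_zero, zero_add, hwx, hwy, hwz] <;> abel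

theorem G2_d (hyx : ∀ n, y (x n) = x (y n)) (hzx : ∀ n, z (x n) = x (z n)) (hzy : ∀ n, z (y n) = y (z n))
    (hdx : ∀ n, d (x n) = x (d n)) (hdy : ∀ n, d (y n) = y (d n)) (hdz : ∀ n, d (z n) = z (d n)) (v : T (T (T M))) :
    G2 x y z (djij x y z d v) = diji x y z d (G2 x y z v) := by
  ext <;> simp only [G2_apply, xi, yi, zi, di, wi, xji, yji, zji, dji, wji, xiji, yiji, ziji, diji, wiji, xj, yj, zj, dj, wj, xij, yij, zij, dij, wij, xjij, yjij, zjij, djij, wjij, opP_apply, opQ_apply, opO_apply, opD_apply, map_add, map_neg, map_sub, map_zero, Prod.fst_add, Prod.snd_add, Prod.fst_neg, Prod.snd_neg, Prod.fst_sub, Prod.snd_sub, Prod.fst_zero, Prod.snd_zero, neg_zero, sub_zero, add_zero, zero_add, hyx, hzx, hzy, hdx, hdy, hdz] <;> abel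

theorem K1_x (hyx : ∀ n, y (x n) = x (y n)) (hzx : ∀ n, z (x n) = x (z n)) (hzy : ∀ n, z (y n) = y (z n)) (v : T (T (T M))) :
    K1 x y z (xiji x y z v) = xiji x y z (K1 x y z v) := by
  ext <;> simp only [K1_apply, xi, yi, zi, di, wi, xji, yji, zji, dji, wji, xiji, yiji, ziji, diji, wiji, xj, yj, zj, dj, wj, xij, yij, zij, dij, wij, xjij, yjij, zjij, djij, wjij, opP_apply, opQ_apply, opO_apply, opD_apply, map_add, map_neg, map_sub, map_zero, Prod.fst_add, Prod.snd_add, Prod.fst_neg, Prod.snd_neg, Prod.fst_sub, Prod.snd_sub, Prod.fst_zero, Prod.snd_zero, neg_zero, sub_zero, add_zero, zero_add, hyx, hzx, hzy] <;> abel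

theorem K1_y (hyx : ∀ n, y (x n) = x (y n)) (hzx : ∀ n, z (x n) = x (z n)) (hzy : ∀ n, z (y n) = y (z n)) (v : T (T (T M))) :
    K1 x y z (yiji x y z v) = yiji x y z (K1 x y z v) := by
  ext <;> simp only [K1_apply, xi, yi, zi, di, wi, xji, yji, zji, dji, wji, xiji, yiji, ziji, diji, wiji, xj, yj, zj, dj, wj, xij, yij, zij, dij, wij, xjij, yjij, zjij, djij, wjij, opP_apply, opQ_apply, opO_apply, opD_apply, map_add, map_neg, map_sub, map_zero, Prod.fst_add, Prod.snd_add, Prod.fst_neg, Prod.snd_neg, Prod.fst_sub, Prod.snd_sub, Prod.fst_zero, Prod.snd_zero, neg_zero, sub_zero, add_zero, zero_add, hyx, hzx, hzy] <;> abel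

theorem K1_z (hyx : ∀ n, y (x n) = x (y n)) (hzx : ∀ n, z (x n) = x (z n)) (hzy : ∀ n, z (y n) = y (z n)) (v : T (T (T M))) :
    K1 x y z (ziji x y z v) = ziji x y z (K1 x y z v) := by
  ext <;> simp only [K1_apply, xi, yi, zi, di, wi, xji, yji, zji, dji, wji, xiji, yiji, ziji, diji, wiji, xj, yj, zj, dj, wj, xij, yij, zij, dij, wij, xjij, yjij, zjij, djij, wjij, opP_apply, opQ_apply, opO_apply, opD_apply, map_add, map_neg, map_sub, map_zero, Prod.fst_add, Prod.snd_add, Prod.fst_neg, Prod.snd_neg, Prod.fst_sub, Prod.snd_sub, Prod.fst_zero, Prod.snd_zero, neg_zero, sub_zero, add_zero, zero_add, hyx, hzx, hzy] <;> abel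

theorem K1_w (hwx : ∀ n, w (x n) = x (w n)) (hwy : ∀ n, w (y n) = y (w n)) (hwz : ∀ n, w (z n) = z (w n)) (v : T (T (T M))) :
    K1 x y z (wiji w v) = wiji w (K1 x y z v) := by
  ext <;> simp only [K1_apply, xi, yi, zi, di, wi, xji, yji, zji, dji, wji, xiji, yiji, ziji, diji, wiji, xj, yj, zj, dj, wj, xij, yij, zij, dij, wij, xjij, yjij, zjij, djij, wjij, opP_apply, opQ_apply, opO_apply, opD_apply, map_add, map_neg, map_sub, map_zero, Prod.fst_add, Prod.snd_add, Prod.fst_neg, Prod.snd_neg, Prod.fst_sub, Prod.snd_sub, Prod.fst_zero, Prod.snd_zero, neg_zero, sub_zero, add_zero, zero_add, hwx, hwy, hwz] <;> abel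

theorem K2_x (hyx : ∀ n, y (x n) = x (y n)) (hzx : ∀ n, z (x n) = x (z n)) (hzy : ∀ n, z (y n) = y (z n)) (v : T (T (T M))) :
    K2 x y z (xjij x y z v) = xjij x y z (K2 x y z v) := by
  ext <;> simp only [K2_apply, xi, yi, zi, di, wi, xji, yji, zji, dji, wji, xiji, yiji, ziji, diji, wiji, xj, yj, zj, dj, wj, xij, yij, zij, dij, wij, xjij, yjij, zjij, djij, wjij, opP_apply, opQ_apply, opO_apply, opD_apply, map_add, map_neg, map_sub, map_zero, Prod.fst_add, Prod.snd_add, Prod.fst_neg, Prod.snd_neg, Prod.fst_sub, Prod.snd_sub, Prod.fst_zero, Prod.snd_zero, neg_zero, sub_zero, add_zero, zero_add, hyx, hzx, hzy] <;> abel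

theorem K2_y (hyx : ∀ n, y (x n) = x (y n)) (hzx : ∀ n, z (x n) = x (z n)) (hzy : ∀ n, z (y n) = y (z n)) (v : T (T (T M))) :
    K2 x y z (yjij x y z v) = yjij x y z (K2 x y z v) := by
  ext <;> simp only [K2_apply, xi, yi, zi, di, wi, xji, yji, zji, dji, wji, xiji, yiji, ziji, diji, wiji, xj, yj, zj, dj, wj, xij, yij, zij, dij, wij, xjij, yjij, zjij, djij, wjij, opP_apply, opQ_apply, opO_apply, opD_apply, map_add, map_neg, map_sub, map_zero, Prod.fst_add, Prod.snd_add, Prod.fst_neg, Prod.snd_neg, Prod.fst_sub, Prod.snd_sub, Prod.fst_zero, Prod.snd_zero, neg_zero, sub_zero, add_zero, zero_add, hyx, hzx, hzy] <;> abel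

theorem K2_z (hyx : ∀ n, y (x n) = x (y n)) (hzx : ∀ n, z (x n) = x (z n)) (hzy : ∀ n, z (y n) = y (z n)) (v : T (T (T M))) :
    K2 x y z (zjij x y z v) = zjij x y z (K2 x y z v) := by
  ext <;> simp only [K2_apply, xi, yi, zi, di, wi, xji, yji, zji, dji, wji, xiji, yiji, ziji, diji, wiji, xj, yj, zj, dj, wj, xij, yij, zij, dij, wij, xjij, yjij, zjij, djij, wjij, opP_apply, opQ_apply, opO_apply, opD_apply, map_add, map_neg, map_sub, map_zero, Prod.fst_add, Prod.snd_add, Prod.fst_neg, Prod.snd_neg, Prod.fst_sub, Prod.snd_sub, Prod.fst_zero, Prod.snd_zero, neg_zero, sub_zero, add_zero, zero_add, hyx, hzx, hzy] <;> abel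

theorem K2_w (hwx : ∀ n, w (x n) = x (w n)) (hwy : ∀ n, w (y n) = y (w n)) (hwz : ∀ n, w (z n) = z (w n)) (v : T (T (T M))) :
    K2 x y z (wjij w v) = wjij w (K2 x y z v) := by
  ext <;> simp only [K2_apply, xi, yi, zi, di, wi, xji, yji, zji, dji, wji, xiji, yiji, ziji, diji, wiji, xj, yj, zj, dj, wj, xij, yij, zij, dij, wij, xjij, yjij, zjij, djij, wjij, opP_apply, opQ_apply, opO_apply, opD_apply, map_add, map_neg, map_sub, map_zero, Prod.fst_add, Prod.snd_add, Prod.fst_neg, Prod.snd_neg, Prod.fst_sub, Prod.snd_sub, Prod.fst_zero, Prod.snd_zero, neg_zero, sub_zero, add_zero, zero_add, hwx, hwy, hwz] <;> abel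

theorem hom1 (hyx : ∀ n, y (x n) = x (y n)) (hzx : ∀ n, z (x n) = x (z n)) (hzy : ∀ n, z (y n) = y (z n))
    (hdx : ∀ n, d (x n) = x (d n)) (hdy : ∀ n, d (y n) = y (d n)) (hdz : ∀ n, d (z n) = z (d n)) (v : T (T (T M))) :
    v - G2 x y z (G1 x y z v) = diji x y z d (K1 x y z v) + K1 x y z (diji x y z d v) := by
  ext <;> simp only [G1_apply, G2_apply, K1_apply, xi, yi, zi, di, wi, xji, yji, zji, dji, wji, xiji, yiji, ziji, diji, wiji, xj, yj, zj, dj, wj, xij, yij, zij, dij, wij, xjij, yjij, zjij, djij, wjij, opP_apply, opQ_apply, opO_apply, opD_apply, map_add, map_neg, map_sub, map_zero, Prod.fst_add, Prod.snd_add, Prod.fst_neg, Prod.snd_neg, Prod.fst_sub, Prod.snd_sub, Prod.fst_zero, Prod.snd_zero, neg_zero, sub_zero, add_zero, zero_add, hyx, hzx, hzy, hdx, hdy, hdz] <;> abel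

theorem hom2 (hyx : ∀ n, y (x n) = x (y n)) (hzx : ∀ n, z (x n) = x (z n)) (hzy : ∀ n, z (y n) = y (z n))
    (hdx : ∀ n, d (x n) = x (d n)) (hdy : ∀ n, d (y n) = y (d n)) (hdz : ∀ n, d (z n) = z (d n)) (v : T (T (T M))) :
    v - G1 x y z (G2 x y z v) = djij x y z d (K2 x y z v) + K2 x y z (djij x y z d v) := by
  ext <;> simp only [G2_apply, G1_apply, K2_apply, xi, yi, zi, di, wi, xji, yji, zji, dji, wji, xiji, yiji, ziji, diji, wiji, xj, yj, zj, dj, wj, xij, yij, zij, dij, wij, xjij, yjij, zjij, djij, wjij, opP_apply, opQ_apply, opO_apply, opD_apply, map_add, map_neg, map_sub, map_zero, Prod.fst_add, Prod.snd_add, Prod.fst_neg, Prod.snd_neg, Prod.fst_sub, Prod.snd_sub, Prod.fst_zero, Prod.snd_zero, neg_zero, sub_zero, add_zero, zero_add, hyx, hzx, hzy, hdx, hdy, hdz] <;> abel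

theorem pr3_comm_G1 {f₀ f₁ f₂ f₃ : M →ₗ[A] M}
    (h0 : ∀ n, f₀ (x n) = x (f₀ n)) (h0' : ∀ n, f₀ (y n) = y (f₀ n)) (h0'' : ∀ n, f₀ (z n) = z (f₀ n))
    (h1 : ∀ n, f₁ (x n) = x (f₁ n)) (h1' : ∀ n, f₁ (y n) = y (f₁ n)) (h1'' : ∀ n, f₁ (z n) = z (f₁ n))
    (v : T (T (T M))) :
    G1 x y z (pr3 f₀ f₁ f₂ f₃ v) = pr3 f₀ f₁ f₂ f₃ (G1 x y z v) := by
  ext <;> simp only [G1_apply, pr3, opR_apply, map_add, map_neg, map_sub, map_zero, h0, h0', h0'',
    h1, h1', h1'']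

theorem pr3_comm_G2 {f₀ f₁ f₂ f₃ : M →ₗ[A] M}
    (h0 : ∀ n, f₀ (x n) = x (f₀ n)) (h0' : ∀ n, f₀ (y n) = y (f₀ n)) (h0'' : ∀ n, f₀ (z n) = z (f₀ n))
    (h1 : ∀ n, f₁ (x n) = x (f₁ n)) (h1' : ∀ n, f₁ (y n) = y (f₁ n)) (h1'' : ∀ n, f₁ (z n) = z (f₁ n))
    (v : T (T (T M))) :
    G2 x y z (pr3 f₀ f₁ f₂ f₃ v) = pr3 f₀ f₁ f₂ f₃ (G2 x y z v) := by
  ext <;> simp only [G2_apply, pr3, opR_apply, map_add, map_neg, map_sub, map_zero, h0, h0', h0'',
    h1, h1', h1'']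

theorem pr3_comm_K1 {f₀ f₁ f₂ f₃ f₄ : M →ₗ[A] M}
    (h1 : ∀ n, f₁ (x n) = x (f₁ n)) (h1' : ∀ n, f₁ (y n) = y (f₁ n)) (h1'' : ∀ n, f₁ (z n) = z (f₁ n))
    (v : T (T (T M))) :
    pr3 f₁ f₂ f₃ f₄ (K1 x y z v) = K1 x y z (pr3 f₀ f₁ f₂ f₃ v) := by
  ext <;> simp only [K1_apply, pr3, opR_apply, map_add, map_neg, map_sub, map_zero, h1, h1', h1'']

theorem pr3_comm_K2 {f₀ f₁ f₂ f₃ f₄ : M →ₗ[A] M}
    (h1 : ∀ n, f₁ (x n) = x (f₁ n)) (h1' : ∀ n, f₁ (y n) = y (f₁ n)) (h1'' : ∀ n, f₁ (z n) = z (f₁ n))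
    (v : T (T (T M))) :
    pr3 f₁ f₂ f₃ f₄ (K2 x y z v) = K2 x y z (pr3 f₀ f₁ f₂ f₃ v) := by
  ext <;> simp only [K2_apply, pr3, opR_apply, map_add, map_neg, map_sub, map_zero, h1, h1', h1'']

theorem K1_pr0 {f₀ : M →ₗ[A] M} (v : T (T (T M))) :
    K1 x y z (pr3 f₀ 0 0 0 v) = 0 := by
  ext <;> simp only [K1_apply, pr3, opR_apply, map_zero, LinearMap.zero_apply, neg_zero,
    Prod.fst_zero, Prod.snd_zero]

theorem K2_pr0 {f₀ : M →ₗ[A] M} (v : T (T (T M))) :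
    K2 x y z (pr3 f₀ 0 0 0 v) = 0 := by
  ext <;> simp only [K2_apply, pr3, opR_apply, map_zero, LinearMap.zero_apply, neg_zero,
    Prod.fst_zero, Prod.snd_zero]

end Pool.Agent.H.MP_c30e5d_gt.R3
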