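import Pool.Agent.H.MP_c30e5d_gt.R3.Reid

/-!
# Far commutation
-/

namespace Pool.Agent.H.MP_c30e5d_gt.R3

set_option linter.all false

variable {A : Type} [CommRing A] {M : Type} [AddCommGroup M] [Module A M]

/-- the exchange of two far crossings -/
def SW (A : Type) [CommRing A] (M : Type) [AddCommGroup M] [Module A M] :
    T (T M) →ₗ[A] T (T M) where
  toFun v := ((((v.1.1.1.1, v.1.2.1.1), v.2.1.1), ((v.1.1.1.2, v.1.2.1.2), v.2.1.2)),
    ((v.1.1.2, v.1.2.2), -v.2.2))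
  map_add' v w := by ext <;> simp <;> abel
  map_smul' c v := by ext <;> simp

theorem SW_apply (v : T (T M)) : SW A M v =
    ((((v.1.1.1.1, v.1.2.1.1), v.2.1.1), ((v.1.1.1.2, v.1.2.1.2), v.2.1.2)),
    ((v.1.1.2, v.1.2.2), -v.2.2)) := rfl

theorem SW_SW (v : T (T M)) : SW A M (SW A M v) = v := by
  ext <;> simp only [SW_apply, neg_neg]

theorem SW_1 (a b : M →ₗ[A] M) (v : T (T M)) :
    SW A M (opP (opO a) (opO b) v) = opO (opP a b) (SW A M v) := by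
  ext <;> simp only [SW_apply, opP_apply, opO_apply, Prod.fst_add, Prod.snd_add, Prod.fst_neg,
    Prod.snd_neg, map_neg]

theorem SW_2 (a b : M →ₗ[A] M) (v : T (T M)) :
    SW A M (opQ (opO a) (opO b) v) = opO (opQ a b) (SW A M v) := by
  ext <;> simp only [SW_apply, opQ_apply, opO_apply, Prod.fst_add, Prod.snd_add, Prod.fst_neg,
    Prod.snd_neg, map_neg]

theorem SW_3 (a b : M →ₗ[A] M) (v : T (T M)) :
    SW A M (opO (opP a b) v) = opP (opO a) (opO b) (SW A M v) := by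
  ext <;> simp only [SW_apply, opP_apply, opO_apply, Prod.fst_add, Prod.snd_add, Prod.fst_neg,
    Prod.snd_neg, map_neg]

theorem SW_4 (a b : M →ₗ[A] M) (v : T (T M)) :
    SW A M (opO (opQ a b) v) = opQ (opO a) (opO b) (SW A M v) := by
  ext <;> simp only [SW_apply, opQ_apply, opO_apply, Prod.fst_add, Prod.snd_add, Prod.fst_neg,
    Prod.snd_neg, map_neg]

theorem SW_5 (a : M →ₗ[A] M) (v : T (T M)) :
    SW A M (opO (opO a) v) = opO (opO a) (SW A M v) := by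
  ext <;> simp only [SW_apply, opO_apply, map_neg]

theorem SW_D (a c d : M →ₗ[A] M) (v : T (T M)) :
    SW A M (opD (opO a) (opD c d) v) = opD (opO c) (opD a d) (SW A M v) := by
  ext <;> simp only [SW_apply, opD_apply, opO_apply, Prod.fst_add, Prod.snd_add, Prod.fst_neg,
    Prod.snd_neg, Prod.fst_sub, Prod.snd_sub, map_neg] <;> abel

/-- projections on twofold crossings -/
def pr2 (f₀ f₁ f₂ : M →ₗ[A] M) : T (T M) →ₗ[A] T (T M) :=
  opR (opR f₀ f₁) (opR f₁ f₂)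

theorem SW_pr (f₀ f₁ f₂ : M →ₗ[A] M) (v : T (T M)) :
    SW A M (pr2 f₀ f₁ f₂ v) = pr2 f₀ f₁ f₂ (SW A M v) := by
  ext <;> simp only [SW_apply, pr2, opR_apply, map_neg]

end Pool.Agent.H.MP_c30e5d_gt.R3

namespace Pool.Agent.H.MP_c30e5d_gt

open R3

variable {A : Type} [CommRing A] {m : ℕ}

theorem pr2_0 (i j : Fin m) (p₁ q₁ p₂ q₂ : Fin (m + 1)) (O : Obj A m) :
    (cross i p₂ q₂ (cross j p₁ q₁ O)).pr 0 = pr2 (O.pr 0) 0 0 := by
  apply LinearMap.ext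
  intro v
  change T (T O.M) at v
  rw [pr_zero', pr_zero']
  rfl

theorem pr2_1 (i j : Fin m) (p₁ q₁ p₂ q₂ : Fin (m + 1)) (O : Obj A m) :
    (cross i p₂ q₂ (cross j p₁ q₁ O)).pr 1 = pr2 (O.pr 1) (O.pr 0) 0 := by
  rfl

theorem pr2_2 (i j : Fin m) (p₁ q₁ p₂ q₂ : Fin (m + 1)) (O : Obj A m) (e : ℕ) :
    (cross i p₂ q₂ (cross j p₁ q₁ O)).pr (e + 2) =
      pr2 (O.pr (e + 2)) (O.pr (e + 1)) (O.pr e) := by
  rfl

section
variable {i j : Fin m} (p₁ q₁ p₂ q₂ : Fin (m + 1)) (O : Obj A m)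
  (h1 : i.castSucc ≠ j.castSucc) (h2 : i.castSucc ≠ j.succ) (h3 : i.succ ≠ j.castSucc)
  (h4 : i.succ ≠ j.succ)
include h1 h2 h3 h4

theorem far_X (l : Fin (m + 1)) (z : T (T O.M)) :
    SW A O.M ((cross i p₂ q₂ (cross j p₁ q₁ O)).X l z) =
      (cross j p₁ q₁ (cross i p₂ q₂ O)).X l (SW A O.M z) := by
  by_cases hi1 : l = i.castSucc
  · subst hi1
    rw [X_P, X_O j _ _ _ h1 h2, X_O j _ _ _ h3 h4, X_O j _ _ _ h1 h2, X_P]
    exact SW_1 _ _ z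
  by_cases hi2 : l = i.succ
  · subst hi2
    rw [X_Q, X_O j _ _ _ h1 h2, X_O j _ _ _ h3 h4, X_O j _ _ _ h3 h4, X_Q]
    exact SW_2 _ _ z
  by_cases hj1 : l = j.castSucc
  · subst hj1
    rw [X_P j, X_O i _ _ _ h1.symm h3.symm, X_O i _ _ _ h1.symm h3.symm,
      X_O i _ _ _ h2.symm h4.symm, X_P]
    exact SW_3 _ _ z
  by_cases hj2 : l = j.succ
  · subst hj2
    rw [X_Q j, X_O i _ _ _ h1.symm h3.symm, X_O i _ _ _ h2.symm h4.symm,
      X_O i _ _ _ h2.symm h4.symm, X_Q]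
    exact SW_4 _ _ z
  rw [X_O i _ _ _ hi1 hi2, X_O j _ _ _ hj1 hj2, X_O j _ _ _ hj1 hj2, X_O i _ _ _ hi1 hi2]
  exact SW_5 _ z

theorem far_D (z : T (T O.M)) :
    SW A O.M ((cross i p₂ q₂ (cross j p₁ q₁ O)).D 0 z) =
      (cross j p₁ q₁ (cross i p₂ q₂ O)).D 0 (SW A O.M z) := by
  rw [D_D, D_D, D_D, D_D, X_O j _ _ _ h1 h2, X_O i _ _ _ h1.symm h3.symm]
  exact SW_D _ _ _ z

end

theorem far_pr {i j : Fin m} (p₁ q₁ p₂ q₂ : Fin (m + 1)) (O : Obj A m) (e : ℕ) (z : T (T O.M)) :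
    SW A O.M ((cross i p₂ q₂ (cross j p₁ q₁ O)).pr e z) =
      (cross j p₁ q₁ (cross i p₂ q₂ O)).pr e (SW A O.M z) := by
  rcases e with _ | _ | e
  · rw [pr2_0, pr2_0]; exact SW_pr _ _ _ z
  · rw [pr2_1, pr2_1]; exact SW_pr _ _ _ z
  · rw [pr2_2, pr2_2]; exact SW_pr _ _ _ z

/-- crossings commute with the change of labels -/
def ret_far {i j : Fin m} (p₁ q₁ p₂ q₂ : Fin (m + 1)) (O : Obj A m)
    (h1 : i.castSucc ≠ j.castSucc) (h2 : i.castSucc ≠ j.succ) (h3 : i.succ ≠ j.castSucc)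
    (h4 : i.succ ≠ j.succ) :
    Ret (cross i p₂ q₂ (cross j p₁ q₁ O)) (cross j p₁ q₁ (cross i p₂ q₂ O)) where
  F := SW A O.M
  G := SW A O.M
  H := 0
  FX l z := far_X p₁ q₁ p₂ q₂ O h1 h2 h3 h4 l z
  GX l z := far_X p₂ q₂ p₁ q₁ O h1.symm h3.symm h2.symm h4.symm l z
  HX l z := by simp only [LinearMap.zero_apply, map_zero]
  FD z := far_D p₁ q₁ p₂ q₂ O h1 h2 h3 h4 z
  GD z := far_D p₂ q₂ p₁ q₁ O h1.symm h3.symm h2.symm h4.symm z
  Fpr e z := far_pr p₁ q₁ p₂ q₂ O e z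
  Gpr e z := far_pr p₂ q₂ p₁ q₁ O e z
  Hpr e z := by simp only [LinearMap.zero_apply, map_zero]
  Hpr0 z := by simp only [LinearMap.zero_apply]
  hom z := by
    refine (sub_eq_zero_of_eq (SW_SW (A := A) (M := O.M) z).symm).trans ?_
    simp only [LinearMap.zero_apply, map_zero, add_zero]
    rfl

end Pool.Agent.H.MP_c30e5d_gt
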