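import Mathlib

/-!
# Reidemeister 3: the explicit maps (generated by a script, verified there over `ℤ[x,y,z]`)

`T M = (M × M) × M` is the underlying module of a crossing: `((n₀, n₁), p)` stands for
`1 ⊗ n₀ + u ⊗ n₁ ∈ B M` and `p ∈ M`.
-/

namespace Pool.Agent.H.MP_c30e5d_gt.R3

set_option linter.all false
set_option linter.unusedSimpArgs false
set_option linter.unusedVariables false

abbrev T (M : Type) : Type := (M × M) × M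

variable {A : Type} [CommRing A] {M : Type} [AddCommGroup M] [Module A M]

/-- first variable `a` of a crossing of the positions with variables `a`, `b` -/
def opP (a b : M →ₗ[A] M) : T M →ₗ[A] T M where
  toFun v := ((-(a (b v.1.2)), v.1.1 + a v.1.2 + b v.1.2), a v.2)
  map_add' v w := by ext <;> simp <;> abel
  map_smul' c v := by ext <;> simp

/-- second variable `b` of a crossing of the positions with variables `a`, `b` -/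
def opQ (a b : M →ₗ[A] M) : T M →ₗ[A] T M where
  toFun v := ((a v.1.1 + b v.1.1 + a (b v.1.2), -v.1.1), b v.2)
  map_add' v w := by ext <;> simp <;> abel
  map_smul' c v := by ext <;> simp

/-- other variables -/
def opO (c : M →ₗ[A] M) : T M →ₗ[A] T M where
  toFun v := ((c v.1.1, c v.1.2), c v.2)
  map_add' v w := by ext <;> simp
  map_smul' c v := by ext <;> simp

/-- differential -/
def opD (a d : M →ₗ[A] M) : T M →ₗ[A] T M where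
  toFun v := ((d v.1.1, d v.1.2), v.1.1 + a v.1.2 - d v.2)
  map_add' v w := by ext <;> simp <;> abel
  map_smul' c v := by ext <;> simp [smul_sub]

theorem opP_apply (a b : M →ₗ[A] M) (v : T M) :
    opP a b v = ((-(a (b v.1.2)), v.1.1 + a v.1.2 + b v.1.2), a v.2) := rfl
theorem opQ_apply (a b : M →ₗ[A] M) (v : T M) :
    opQ a b v = ((a v.1.1 + b v.1.1 + a (b v.1.2), -v.1.1), b v.2) := rfl
theorem opO_apply (c : M →ₗ[A] M) (v : T M) :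
    opO c v = ((c v.1.1, c v.1.2), c v.2) := rfl
theorem opD_apply (a d : M →ₗ[A] M) (v : T M) :
    opD a d v = ((d v.1.1, d v.1.2), v.1.1 + a v.1.2 - d v.2) := rfl

/-- `G1` (iji → jij) -/
def G1 (x y z : M →ₗ[A] M) : T (T (T M)) →ₗ[A] T (T (T M)) where
  toFun v := ((((((v.1.1.1.1.1.1 + z v.1.1.1.2.1.1 - z v.1.1.1.1.1.2, -(x v.1.2.1.1.1.2)), v.2.1.1.1.1 - z v.1.1.2.1.2),
      ((v.1.1.1.1.1.2 + v.1.2.1.1.1.1 + x v.1.2.1.1.1.2 + z v.1.2.1.2.1.1 - z v.1.2.1.1.1.2, v.1.2.1.1.1.2), v.2.1.1.1.2 - z v.1.2.2.1.2)),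
      ((v.2.1.1.1.1 + x v.2.1.1.1.2 - z v.1.1.2.1.2 - x (z v.1.2.2.1.2), 0), 0)),
    ((((v.1.1.1.1.1.2, -(x v.1.2.1.2.1.2)), v.2.1.2.1.1 + v.1.1.2.1.2),
      ((v.1.1.1.2.1.2 + v.1.2.1.1.1.2 + x v.1.2.1.2.1.2, v.1.2.1.2.1.2), v.2.1.2.1.2 + v.1.2.2.1.2)),
      ((v.2.1.2.1.1 + x v.2.1.2.1.2 + v.1.1.2.1.2 + x v.1.2.2.1.2, 0), 0))),
    ((((v.1.1.1.1.2 - z v.1.1.2.1.2, v.1.1.2.1.2 + v.1.1.1.2.2), -(v.2.2.1.1) - v.1.1.2.2),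
      ((v.1.2.1.1.2 - z v.1.2.2.1.2, v.1.2.2.1.2 + v.1.2.1.2.2), -(v.2.2.1.2) - v.1.2.2.2)),
      ((-(v.2.1.1.2), -(v.2.1.2.2)), v.2.2.2)))
  map_add' v w := by
    ext <;> simp only [Prod.fst_add, Prod.snd_add, Prod.mk_add_mk, map_add, add_zero] <;> abel
  map_smul' c v := by
    ext <;> simp only [Prod.smul_fst, Prod.smul_snd, Prod.smul_mk, map_smul, smul_add, smul_sub,
      smul_neg, RingHom.id_apply, smul_zero]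

theorem G1_apply (x y z : M →ₗ[A] M) (v : T (T (T M))) :
    G1 x y z v = ((((((v.1.1.1.1.1.1 + z v.1.1.1.2.1.1 - z v.1.1.1.1.1.2, -(x v.1.2.1.1.1.2)), v.2.1.1.1.1 - z v.1.1.2.1.2),
      ((v.1.1.1.1.1.2 + v.1.2.1.1.1.1 + x v.1.2.1.1.1.2 + z v.1.2.1.2.1.1 - z v.1.2.1.1.1.2, v.1.2.1.1.1.2), v.2.1.1.1.2 - z v.1.2.2.1.2)),
      ((v.2.1.1.1.1 + x v.2.1.1.1.2 - z v.1.1.2.1.2 - x (z v.1.2.2.1.2), 0), 0)),
    ((((v.1.1.1.1.1.2, -(x v.1.2.1.2.1.2)), v.2.1.2.1.1 + v.1.1.2.1.2),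
      ((v.1.1.1.2.1.2 + v.1.2.1.1.1.2 + x v.1.2.1.2.1.2, v.1.2.1.2.1.2), v.2.1.2.1.2 + v.1.2.2.1.2)),
      ((v.2.1.2.1.1 + x v.2.1.2.1.2 + v.1.1.2.1.2 + x v.1.2.2.1.2, 0), 0))),
    ((((v.1.1.1.1.2 - z v.1.1.2.1.2, v.1.1.2.1.2 + v.1.1.1.2.2), -(v.2.2.1.1) - v.1.1.2.2),
      ((v.1.2.1.1.2 - z v.1.2.2.1.2, v.1.2.2.1.2 + v.1.2.1.2.2), -(v.2.2.1.2) - v.1.2.2.2)),
      ((-(v.2.1.1.2), -(v.2.1.2.2)), v.2.2.2))) := rfl

/-- `K1` (iji) -/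
def K1 (x y z : M →ₗ[A] M) : T (T (T M)) →ₗ[A] T (T (T M)) where
  toFun v := ((((((z v.1.1.2.1.2, 0), 0),
      ((-(v.1.1.2.1.2), 0), 0)),
      ((-(v.1.1.2.2), 0), 0)),
    ((((z v.1.2.2.1.2, 0), 0),
      ((-(v.1.2.2.1.2), 0), 0)),
      ((-(v.1.2.2.2), 0), 0))),
    ((((0, 0), 0),
      ((0, 0), 0)),
      ((0, 0), 0)))
  map_add' v w := by
    ext <;> simp only [Prod.fst_add, Prod.snd_add, Prod.mk_add_mk, map_add, add_zero] <;> abel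
  map_smul' c v := by
    ext <;> simp only [Prod.smul_fst, Prod.smul_snd, Prod.smul_mk, map_smul, smul_add, smul_sub,
      smul_neg, RingHom.id_apply, smul_zero]

theorem K1_apply (x y z : M →ₗ[A] M) (v : T (T (T M))) :
    K1 x y z v = ((((((z v.1.1.2.1.2, 0), 0),
      ((-(v.1.1.2.1.2), 0), 0)),
      ((-(v.1.1.2.2), 0), 0)),
    ((((z v.1.2.2.1.2, 0), 0),
      ((-(v.1.2.2.1.2), 0), 0)),
      ((-(v.1.2.2.2), 0), 0))),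
    ((((0, 0), 0),
      ((0, 0), 0)),
      ((0, 0), 0))) := rfl

/-- `G2` (jij → iji) -/
def G2 (x y z : M →ₗ[A] M) : T (T (T M)) →ₗ[A] T (T (T M)) where
  toFun v := ((((((v.1.1.1.1.1.1, v.1.2.1.1.1.1), v.2.1.1.1.1 + y (z v.1.2.2.1.2)),
      ((v.1.2.1.1.1.1, v.1.2.1.1.1.2 + v.1.2.1.2.1.1 - v.1.1.1.2.1.2), v.2.1.1.1.2 - v.1.1.2.1.2 - z v.1.2.2.1.2 - y v.1.2.2.1.2)),
      ((v.2.1.1.1.1 + y v.2.1.1.1.2 - y v.1.1.2.1.2 - y (y v.1.2.2.1.2), 0), 0)),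
    ((((v.1.1.1.1.1.2 + v.1.1.1.2.1.1 - v.1.2.1.1.1.1, v.1.1.1.2.1.2), v.2.1.2.1.1 + v.1.1.2.1.2),
      ((v.1.1.1.2.1.2, v.1.2.1.2.1.2), v.2.1.2.1.2 + v.1.2.2.1.2)),
      ((v.2.1.2.1.1 + y v.2.1.2.1.2 + v.1.1.2.1.2 + y v.1.2.2.1.2, 0), 0))),
    ((((v.1.1.1.1.2 - y v.1.1.2.1.2, v.1.1.2.1.2 + v.1.1.1.2.2), -(v.2.2.1.1) - v.1.1.2.2),
      ((v.1.2.1.1.2 - y v.1.2.2.1.2, v.1.2.2.1.2 + v.1.2.1.2.2), -(v.2.2.1.2) - v.1.2.2.2)),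
      ((-(v.2.1.1.2), -(v.2.1.2.2)), v.2.2.2)))
  map_add' v w := by
    ext <;> simp only [Prod.fst_add, Prod.snd_add, Prod.mk_add_mk, map_add, add_zero] <;> abel
  map_smul' c v := by
    ext <;> simp only [Prod.smul_fst, Prod.smul_snd, Prod.smul_mk, map_smul, smul_add, smul_sub,
      smul_neg, RingHom.id_apply, smul_zero]

theorem G2_apply (x y z : M →ₗ[A] M) (v : T (T (T M))) :
    G2 x y z v = ((((((v.1.1.1.1.1.1, v.1.2.1.1.1.1), v.2.1.1.1.1 + y (z v.1.2.2.1.2)),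
      ((v.1.2.1.1.1.1, v.1.2.1.1.1.2 + v.1.2.1.2.1.1 - v.1.1.1.2.1.2), v.2.1.1.1.2 - v.1.1.2.1.2 - z v.1.2.2.1.2 - y v.1.2.2.1.2)),
      ((v.2.1.1.1.1 + y v.2.1.1.1.2 - y v.1.1.2.1.2 - y (y v.1.2.2.1.2), 0), 0)),
    ((((v.1.1.1.1.1.2 + v.1.1.1.2.1.1 - v.1.2.1.1.1.1, v.1.1.1.2.1.2), v.2.1.2.1.1 + v.1.1.2.1.2),
      ((v.1.1.1.2.1.2, v.1.2.1.2.1.2), v.2.1.2.1.2 + v.1.2.2.1.2)),
      ((v.2.1.2.1.1 + y v.2.1.2.1.2 + v.1.1.2.1.2 + y v.1.2.2.1.2, 0), 0))),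
    ((((v.1.1.1.1.2 - y v.1.1.2.1.2, v.1.1.2.1.2 + v.1.1.1.2.2), -(v.2.2.1.1) - v.1.1.2.2),
      ((v.1.2.1.1.2 - y v.1.2.2.1.2, v.1.2.2.1.2 + v.1.2.1.2.2), -(v.2.2.1.2) - v.1.2.2.2)),
      ((-(v.2.1.1.2), -(v.2.1.2.2)), v.2.2.2))) := rfl

/-- `K2` (jij) -/
def K2 (x y z : M →ₗ[A] M) : T (T (T M)) →ₗ[A] T (T (T M)) where
  toFun v := ((((((0, v.1.1.2.1.2), 0),
      ((-(v.1.1.2.1.2), 0), 0)),
      ((-(v.1.1.2.2), 0), 0)),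
    ((((0, v.1.2.2.1.2), 0),
      ((-(v.1.2.2.1.2), 0), 0)),
      ((-(v.1.2.2.2), 0), 0))),
    ((((0, 0), 0),
      ((0, 0), 0)),
      ((0, 0), 0)))
  map_add' v w := by
    ext <;> simp only [Prod.fst_add, Prod.snd_add, Prod.mk_add_mk, map_add, add_zero] <;> abel
  map_smul' c v := by
    ext <;> simp only [Prod.smul_fst, Prod.smul_snd, Prod.smul_mk, map_smul, smul_add, smul_sub,
      smul_neg, RingHom.id_apply, smul_zero]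

theorem K2_apply (x y z : M →ₗ[A] M) (v : T (T (T M))) :
    K2 x y z v = ((((((0, v.1.1.2.1.2), 0),
      ((-(v.1.1.2.1.2), 0), 0)),
      ((-(v.1.1.2.2), 0), 0)),
    ((((0, v.1.2.2.1.2), 0),
      ((-(v.1.2.2.1.2), 0), 0)),
      ((-(v.1.2.2.2), 0), 0))),
    ((((0, 0), 0),
      ((0, 0), 0)),
      ((0, 0), 0))) := rfl

end Pool.Agent.H.MP_c30e5d_gt.R3
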