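import Pool.Agent.H.MP_c30e5d_gt.R3.Ret

/-!
# Reidemeister 3 for the explicit models
-/

namespace Pool.Agent.H.MP_c30e5d_gt

open R3

variable {A : Type} [CommRing A] {m : ℕ}

theorem X_P (i : Fin m) (p q : Fin (m + 1)) (O : Obj A m) :
    (cross i p q O).X i.castSucc = opP (O.X i.castSucc) (O.X i.succ) := by
  apply LinearMap.ext
  intro z
  change (O.M × O.M) × O.M at z
  rw [cross_X, BX_castSucc]
  rfl

theorem X_Q (i : Fin m) (p q : Fin (m + 1)) (O : Obj A m) :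
    (cross i p q O).X i.succ = opQ (O.X i.castSucc) (O.X i.succ) := by
  apply LinearMap.ext
  intro z
  change (O.M × O.M) × O.M at z
  rw [cross_X, BX_succ]
  rfl

theorem X_O (i : Fin m) (p q : Fin (m + 1)) (O : Obj A m) {l : Fin (m + 1)}
    (h1 : l ≠ i.castSucc) (h2 : l ≠ i.succ) :
    (cross i p q O).X l = opO (O.X l) := by
  apply LinearMap.ext
  intro z
  change (O.M × O.M) × O.M at z
  rw [cross_X, BX_other O i l h1 h2]
  rfl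

theorem D_D (i : Fin m) (p q : Fin (m + 1)) (O : Obj A m) :
    (cross i p q O).D 0 = opD (O.X i.castSucc) (O.D 0) := by
  apply LinearMap.ext
  intro z
  change (O.M × O.M) × O.M at z
  rw [D0_cross]
  rfl

section
variable {i j : Fin m} (h : j.castSucc = i.succ) (p₁ q₁ p₂ q₂ p₃ q₃ : Fin (m + 1)) (O : Obj A m)
include h

theorem ne_02 : i.castSucc ≠ j.succ := by
  intro e
  have e1 := congrArg Fin.val e
  have e2 := congrArg Fin.val h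
  simp at e1 e2
  omega

theorem ne_12 : i.succ ≠ j.succ := by
  intro e
  have e1 := congrArg Fin.val e
  have e2 := congrArg Fin.val h
  simp at e1 e2
  omega

theorem ne_01 : i.castSucc ≠ j.castSucc := by
  rw [h]; exact castSucc_ne_succ' i

theorem iji_a : (cross i p₃ q₃ (cross j p₂ q₂ (cross i p₁ q₁ O))).X i.castSucc =
    xiji (O.X i.castSucc) (O.X i.succ) (O.X j.succ) := by
  rw [X_P, X_O j p₂ q₂ _ (ne_01 h) (ne_02 h), X_P]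
  rw [← h, X_P, h, X_Q, X_O i p₁ q₁ O (ne_02 h).symm (ne_12 h).symm]
  rfl

theorem iji_b : (cross i p₃ q₃ (cross j p₂ q₂ (cross i p₁ q₁ O))).X i.succ =
    yiji (O.X i.castSucc) (O.X i.succ) (O.X j.succ) := by
  rw [X_Q, X_O j p₂ q₂ _ (ne_01 h) (ne_02 h), X_P]
  rw [← h, X_P, h, X_Q, X_O i p₁ q₁ O (ne_02 h).symm (ne_12 h).symm]
  rfl

theorem iji_c : (cross i p₃ q₃ (cross j p₂ q₂ (cross i p₁ q₁ O))).X j.succ =
    ziji (O.X i.castSucc) (O.X i.succ) (O.X j.succ) := by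
  rw [X_O i p₃ q₃ _ (ne_02 h).symm (ne_12 h).symm, X_Q, h, X_Q,
    X_O i p₁ q₁ O (ne_02 h).symm (ne_12 h).symm]
  rfl

theorem iji_w {l : Fin (m + 1)} (h0 : l ≠ i.castSucc) (h1 : l ≠ i.succ) (h2 : l ≠ j.succ) :
    (cross i p₃ q₃ (cross j p₂ q₂ (cross i p₁ q₁ O))).X l = wiji (O.X l) := by
  rw [X_O i p₃ q₃ _ h0 h1, X_O j p₂ q₂ _ (h ▸ h1) h2, X_O i p₁ q₁ _ h0 h1]
  rfl

theorem iji_D : (cross i p₃ q₃ (cross j p₂ q₂ (cross i p₁ q₁ O))).D 0 =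
    diji (O.X i.castSucc) (O.X i.succ) (O.X j.succ) (O.D 0) := by
  rw [D_D, D_D, D_D, X_O j p₂ q₂ _ (ne_01 h) (ne_02 h), X_P, h, X_Q]
  rfl

theorem jij_a : (cross j p₃ q₃ (cross i p₂ q₂ (cross j p₁ q₁ O))).X i.castSucc =
    xjij (O.X i.castSucc) (O.X i.succ) (O.X j.succ) := by
  rw [X_O j p₃ q₃ _ (ne_01 h) (ne_02 h), X_P, X_O j p₁ q₁ _ (ne_01 h) (ne_02 h)]
  rw [← h, X_P]
  rfl

theorem jij_b : (cross j p₃ q₃ (cross i p₂ q₂ (cross j p₁ q₁ O))).X i.succ =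
    yjij (O.X i.castSucc) (O.X i.succ) (O.X j.succ) := by
  rw [← h, X_P]
  rw [h, X_Q, X_O j p₁ q₁ _ (ne_01 h) (ne_02 h), X_O i p₂ q₂ _ (ne_02 h).symm (ne_12 h).symm, X_Q]
  rw [← h, X_P]
  rfl

theorem jij_c : (cross j p₃ q₃ (cross i p₂ q₂ (cross j p₁ q₁ O))).X j.succ =
    zjij (O.X i.castSucc) (O.X i.succ) (O.X j.succ) := by
  rw [X_Q]
  rw [h, X_Q, X_O j p₁ q₁ _ (ne_01 h) (ne_02 h), X_O i p₂ q₂ _ (ne_02 h).symm (ne_12 h).symm, X_Q]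
  rw [← h, X_P]
  rfl

theorem jij_w {l : Fin (m + 1)} (h0 : l ≠ i.castSucc) (h1 : l ≠ i.succ) (h2 : l ≠ j.succ) :
    (cross j p₃ q₃ (cross i p₂ q₂ (cross j p₁ q₁ O))).X l = wjij (O.X l) := by
  rw [X_O j p₃ q₃ _ (h ▸ h1) h2, X_O i p₂ q₂ _ h0 h1, X_O j p₁ q₁ _ (h ▸ h1) h2]
  rfl

theorem jij_D : (cross j p₃ q₃ (cross i p₂ q₂ (cross j p₁ q₁ O))).D 0 =
    djij (O.X i.castSucc) (O.X i.succ) (O.X j.succ) (O.D 0) := by
  rw [D_D, D_D, D_D]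
  rw [X_O j p₁ q₁ _ (ne_01 h) (ne_02 h), h, X_Q, X_O j p₁ q₁ _ (ne_01 h) (ne_02 h)]
  rw [← h, X_P]
  rfl

end

end Pool.Agent.H.MP_c30e5d_gt
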