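import Pool.Agent.H.MP_c30e5d_gt.R3.Obj3

/-!
# Reidemeister 3 and far commutation as homotopy retracts
-/

namespace Pool.Agent.H.MP_c30e5d_gt

open R3

variable {A : Type} [CommRing A] {m : ℕ}

theorem cases4 {i j : Fin m} (l : Fin (m + 1)) : l = i.castSucc ∨ l = i.succ ∨ l = j.succ ∨
    (l ≠ i.castSucc ∧ l ≠ i.succ ∧ l ≠ j.succ) := by
  tauto

theorem pr_zero' (i : Fin m) (p q : Fin (m + 1)) (O : Obj A m) :
    (cross i p q O).pr 0 = opR (O.pr 0) 0 := rfl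

theorem pr_succ' (i : Fin m) (p q : Fin (m + 1)) (O : Obj A m) (e : ℕ) :
    (cross i p q O).pr (e + 1) = opR (O.pr (e + 1)) (O.pr e) := rfl

theorem pr3_0 (i j l : Fin m) (p₁ q₁ p₂ q₂ p₃ q₃ : Fin (m + 1)) (O : Obj A m) :
    (cross i p₃ q₃ (cross j p₂ q₂ (cross l p₁ q₁ O))).pr 0 = pr3 (O.pr 0) 0 0 0 := by
  apply LinearMap.ext
  intro v
  change T (T (T O.M)) at v
  rw [pr_zero', pr_zero', pr_zero']
  rfl

theorem pr3_1 (i j l : Fin m) (p₁ q₁ p₂ q₂ p₃ q₃ : Fin (m + 1)) (O : Obj A m) :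
    (cross i p₃ q₃ (cross j p₂ q₂ (cross l p₁ q₁ O))).pr 1 = pr3 (O.pr 1) (O.pr 0) 0 0 := by
  rfl

theorem pr3_2 (i j l : Fin m) (p₁ q₁ p₂ q₂ p₃ q₃ : Fin (m + 1)) (O : Obj A m) :
    (cross i p₃ q₃ (cross j p₂ q₂ (cross l p₁ q₁ O))).pr 2 = pr3 (O.pr 2) (O.pr 1) (O.pr 0) 0 := by
  rfl

theorem pr3_3 (i j l : Fin m) (p₁ q₁ p₂ q₂ p₃ q₃ : Fin (m + 1)) (O : Obj A m) (e : ℕ) :
    (cross i p₃ q₃ (cross j p₂ q₂ (cross l p₁ q₁ O))).pr (e + 3) =
      pr3 (O.pr (e + 3)) (O.pr (e + 2)) (O.pr (e + 1)) (O.pr e) := by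
  rfl

section
variable {i j : Fin m} (h : j.castSucc = i.succ) (p₁ q₁ p₂ q₂ p₃ q₃ p₁' q₁' p₂' q₂' p₃' q₃' : Fin (m + 1))
  (O : Obj A m) (hpr : ∀ e l z, O.pr e (O.X l z) = O.X l (O.pr e z))
include h hpr

/-- `iji` is a homotopy retract of `jij` -/
def ret_iji : Ret (cross i p₃ q₃ (cross j p₂ q₂ (cross i p₁ q₁ O))) (cross j p₃' q₃' (cross i p₂' q₂' (cross j p₁' q₁' O))) where
  F := G1 (O.X i.castSucc) (O.X i.succ) (O.X j.succ)
  G := G2 (O.X i.castSucc) (O.X i.succ) (O.X j.succ)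
  H := K1 (O.X i.castSucc) (O.X i.succ) (O.X j.succ)
  FX l z := by
    rcases cases4 (i := i) (j := j) l with rfl | rfl | rfl | ⟨h0, h1, h2⟩
    · rw [iji_a h, jij_a h]; exact G1_x (O.XX _ _) (O.XX _ _) (O.XX _ _) z
    · rw [iji_b h, jij_b h]; exact G1_y (O.XX _ _) (O.XX _ _) (O.XX _ _) z
    · rw [iji_c h, jij_c h]; exact G1_z (O.XX _ _) (O.XX _ _) (O.XX _ _) z
    · rw [iji_w h _ _ _ _ _ _ _ h0 h1 h2, jij_w h _ _ _ _ _ _ _ h0 h1 h2]; exact G1_w (O.XX _ _) (O.XX _ _) (O.XX _ _) z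
  GX l z := by
    rcases cases4 (i := i) (j := j) l with rfl | rfl | rfl | ⟨h0, h1, h2⟩
    · rw [iji_a h, jij_a h]; exact G2_x (O.XX _ _) (O.XX _ _) (O.XX _ _) z
    · rw [iji_b h, jij_b h]; exact G2_y (O.XX _ _) (O.XX _ _) (O.XX _ _) z
    · rw [iji_c h, jij_c h]; exact G2_z (O.XX _ _) (O.XX _ _) (O.XX _ _) z
    · rw [iji_w h _ _ _ _ _ _ _ h0 h1 h2, jij_w h _ _ _ _ _ _ _ h0 h1 h2]; exact G2_w (O.XX _ _) (O.XX _ _) (O.XX _ _) z
  HX l z := by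
    rcases cases4 (i := i) (j := j) l with rfl | rfl | rfl | ⟨h0, h1, h2⟩
    · rw [iji_a h]; exact K1_x (O.XX _ _) (O.XX _ _) (O.XX _ _) z
    · rw [iji_b h]; exact K1_y (O.XX _ _) (O.XX _ _) (O.XX _ _) z
    · rw [iji_c h]; exact K1_z (O.XX _ _) (O.XX _ _) (O.XX _ _) z
    · rw [iji_w h _ _ _ _ _ _ _ h0 h1 h2]; exact K1_w (O.XX _ _) (O.XX _ _) (O.XX _ _) z
  FD z := by
    rw [iji_D h, jij_D h]
    exact G1_d (O.XX _ _) (O.XX _ _) (O.XX _ _) (fun n => (O.XD 0 _ n).symm)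
      (fun n => (O.XD 0 _ n).symm) (fun n => (O.XD 0 _ n).symm) z
  GD z := by
    rw [iji_D h, jij_D h]
    exact G2_d (O.XX _ _) (O.XX _ _) (O.XX _ _) (fun n => (O.XD 0 _ n).symm)
      (fun n => (O.XD 0 _ n).symm) (fun n => (O.XD 0 _ n).symm) z
  Fpr e z := by
    rcases e with _ | _ | _ | e
    · rw [pr3_0, pr3_0]
      exact pr3_comm_G1 (fun n => hpr _ _ n) (fun n => hpr _ _ n) (fun n => hpr _ _ n)
        (fun n => (map_zero _).symm) (fun n => (map_zero _).symm) (fun n => (map_zero _).symm) z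
    · rw [pr3_1, pr3_1]
      exact pr3_comm_G1 (fun n => hpr _ _ n) (fun n => hpr _ _ n) (fun n => hpr _ _ n)
        (fun n => hpr _ _ n) (fun n => hpr _ _ n) (fun n => hpr _ _ n) z
    · rw [pr3_2, pr3_2]
      exact pr3_comm_G1 (fun n => hpr _ _ n) (fun n => hpr _ _ n) (fun n => hpr _ _ n)
        (fun n => hpr _ _ n) (fun n => hpr _ _ n) (fun n => hpr _ _ n) z
    · rw [pr3_3, pr3_3]
      exact pr3_comm_G1 (fun n => hpr _ _ n) (fun n => hpr _ _ n) (fun n => hpr _ _ n)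
        (fun n => hpr _ _ n) (fun n => hpr _ _ n) (fun n => hpr _ _ n) z
  Gpr e z := by
    rcases e with _ | _ | _ | e
    · rw [pr3_0, pr3_0]
      exact pr3_comm_G2 (fun n => hpr _ _ n) (fun n => hpr _ _ n) (fun n => hpr _ _ n)
        (fun n => (map_zero _).symm) (fun n => (map_zero _).symm) (fun n => (map_zero _).symm) z
    · rw [pr3_1, pr3_1]
      exact pr3_comm_G2 (fun n => hpr _ _ n) (fun n => hpr _ _ n) (fun n => hpr _ _ n)
        (fun n => hpr _ _ n) (fun n => hpr _ _ n) (fun n => hpr _ _ n) z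
    · rw [pr3_2, pr3_2]
      exact pr3_comm_G2 (fun n => hpr _ _ n) (fun n => hpr _ _ n) (fun n => hpr _ _ n)
        (fun n => hpr _ _ n) (fun n => hpr _ _ n) (fun n => hpr _ _ n) z
    · rw [pr3_3, pr3_3]
      exact pr3_comm_G2 (fun n => hpr _ _ n) (fun n => hpr _ _ n) (fun n => hpr _ _ n)
        (fun n => hpr _ _ n) (fun n => hpr _ _ n) (fun n => hpr _ _ n) z
  Hpr e z := by
    rcases e with _ | _ | _ | e
    · rw [pr3_0, pr3_1]
      exact pr3_comm_K1 (fun n => hpr _ _ n) (fun n => hpr _ _ n) (fun n => hpr _ _ n) z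
    · rw [pr3_1, pr3_2]
      exact pr3_comm_K1 (fun n => hpr _ _ n) (fun n => hpr _ _ n) (fun n => hpr _ _ n) z
    · rw [pr3_2, pr3_3 (e := 0)]
      exact pr3_comm_K1 (fun n => hpr _ _ n) (fun n => hpr _ _ n) (fun n => hpr _ _ n) z
    · rw [pr3_3, pr3_3]
      exact pr3_comm_K1 (fun n => hpr _ _ n) (fun n => hpr _ _ n) (fun n => hpr _ _ n) z
  Hpr0 z := by
    rw [pr3_0]
    exact K1_pr0 z
  hom z := by
    rw [iji_D h]
    exact hom1 (O.XX _ _) (O.XX _ _) (O.XX _ _) (fun n => (O.XD 0 _ n).symm)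
      (fun n => (O.XD 0 _ n).symm) (fun n => (O.XD 0 _ n).symm) z

/-- `jij` is a homotopy retract of `iji` -/
def ret_jij : Ret (cross j p₃ q₃ (cross i p₂ q₂ (cross j p₁ q₁ O))) (cross i p₃' q₃' (cross j p₂' q₂' (cross i p₁' q₁' O))) where
  F := G2 (O.X i.castSucc) (O.X i.succ) (O.X j.succ)
  G := G1 (O.X i.castSucc) (O.X i.succ) (O.X j.succ)
  H := K2 (O.X i.castSucc) (O.X i.succ) (O.X j.succ)
  FX l z := by
    rcases cases4 (i := i) (j := j) l with rfl | rfl | rfl | ⟨h0, h1, h2⟩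
    · rw [jij_a h, iji_a h]; exact G2_x (O.XX _ _) (O.XX _ _) (O.XX _ _) z
    · rw [jij_b h, iji_b h]; exact G2_y (O.XX _ _) (O.XX _ _) (O.XX _ _) z
    · rw [jij_c h, iji_c h]; exact G2_z (O.XX _ _) (O.XX _ _) (O.XX _ _) z
    · rw [jij_w h _ _ _ _ _ _ _ h0 h1 h2, iji_w h _ _ _ _ _ _ _ h0 h1 h2]; exact G2_w (O.XX _ _) (O.XX _ _) (O.XX _ _) z
  GX l z := by
    rcases cases4 (i := i) (j := j) l with rfl | rfl | rfl | ⟨h0, h1, h2⟩
    · rw [jij_a h, iji_a h]; exact G1_x (O.XX _ _) (O.XX _ _) (O.XX _ _) z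
    · rw [jij_b h, iji_b h]; exact G1_y (O.XX _ _) (O.XX _ _) (O.XX _ _) z
    · rw [jij_c h, iji_c h]; exact G1_z (O.XX _ _) (O.XX _ _) (O.XX _ _) z
    · rw [jij_w h _ _ _ _ _ _ _ h0 h1 h2, iji_w h _ _ _ _ _ _ _ h0 h1 h2]; exact G1_w (O.XX _ _) (O.XX _ _) (O.XX _ _) z
  HX l z := by
    rcases cases4 (i := i) (j := j) l with rfl | rfl | rfl | ⟨h0, h1, h2⟩
    · rw [jij_a h]; exact K2_x (O.XX _ _) (O.XX _ _) (O.XX _ _) z
    · rw [jij_b h]; exact K2_y (O.XX _ _) (O.XX _ _) (O.XX _ _) z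
    · rw [jij_c h]; exact K2_z (O.XX _ _) (O.XX _ _) (O.XX _ _) z
    · rw [jij_w h _ _ _ _ _ _ _ h0 h1 h2]; exact K2_w (O.XX _ _) (O.XX _ _) (O.XX _ _) z
  FD z := by
    rw [jij_D h, iji_D h]
    exact G2_d (O.XX _ _) (O.XX _ _) (O.XX _ _) (fun n => (O.XD 0 _ n).symm)
      (fun n => (O.XD 0 _ n).symm) (fun n => (O.XD 0 _ n).symm) z
  GD z := by
    rw [jij_D h, iji_D h]
    exact G1_d (O.XX _ _) (O.XX _ _) (O.XX _ _) (fun n => (O.XD 0 _ n).symm)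
      (fun n => (O.XD 0 _ n).symm) (fun n => (O.XD 0 _ n).symm) z
  Fpr e z := by
    rcases e with _ | _ | _ | e
    · rw [pr3_0, pr3_0]
      exact pr3_comm_G2 (fun n => hpr _ _ n) (fun n => hpr _ _ n) (fun n => hpr _ _ n)
        (fun n => (map_zero _).symm) (fun n => (map_zero _).symm) (fun n => (map_zero _).symm) z
    · rw [pr3_1, pr3_1]
      exact pr3_comm_G2 (fun n => hpr _ _ n) (fun n => hpr _ _ n) (fun n => hpr _ _ n)
        (fun n => hpr _ _ n) (fun n => hpr _ _ n) (fun n => hpr _ _ n) z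
    · rw [pr3_2, pr3_2]
      exact pr3_comm_G2 (fun n => hpr _ _ n) (fun n => hpr _ _ n) (fun n => hpr _ _ n)
        (fun n => hpr _ _ n) (fun n => hpr _ _ n) (fun n => hpr _ _ n) z
    · rw [pr3_3, pr3_3]
      exact pr3_comm_G2 (fun n => hpr _ _ n) (fun n => hpr _ _ n) (fun n => hpr _ _ n)
        (fun n => hpr _ _ n) (fun n => hpr _ _ n) (fun n => hpr _ _ n) z
  Gpr e z := by
    rcases e with _ | _ | _ | e
    · rw [pr3_0, pr3_0]
      exact pr3_comm_G1 (fun n => hpr _ _ n) (fun n => hpr _ _ n) (fun n => hpr _ _ n)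
        (fun n => (map_zero _).symm) (fun n => (map_zero _).symm) (fun n => (map_zero _).symm) z
    · rw [pr3_1, pr3_1]
      exact pr3_comm_G1 (fun n => hpr _ _ n) (fun n => hpr _ _ n) (fun n => hpr _ _ n)
        (fun n => hpr _ _ n) (fun n => hpr _ _ n) (fun n => hpr _ _ n) z
    · rw [pr3_2, pr3_2]
      exact pr3_comm_G1 (fun n => hpr _ _ n) (fun n => hpr _ _ n) (fun n => hpr _ _ n)
        (fun n => hpr _ _ n) (fun n => hpr _ _ n) (fun n => hpr _ _ n) z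
    · rw [pr3_3, pr3_3]
      exact pr3_comm_G1 (fun n => hpr _ _ n) (fun n => hpr _ _ n) (fun n => hpr _ _ n)
        (fun n => hpr _ _ n) (fun n => hpr _ _ n) (fun n => hpr _ _ n) z
  Hpr e z := by
    rcases e with _ | _ | _ | e
    · rw [pr3_0, pr3_1]
      exact pr3_comm_K2 (fun n => hpr _ _ n) (fun n => hpr _ _ n) (fun n => hpr _ _ n) z
    · rw [pr3_1, pr3_2]
      exact pr3_comm_K2 (fun n => hpr _ _ n) (fun n => hpr _ _ n) (fun n => hpr _ _ n) z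
    · rw [pr3_2, pr3_3 (e := 0)]
      exact pr3_comm_K2 (fun n => hpr _ _ n) (fun n => hpr _ _ n) (fun n => hpr _ _ n) z
    · rw [pr3_3, pr3_3]
      exact pr3_comm_K2 (fun n => hpr _ _ n) (fun n => hpr _ _ n) (fun n => hpr _ _ n) z
  Hpr0 z := by
    rw [pr3_0]
    exact K2_pr0 z
  hom z := by
    rw [jij_D h]
    exact hom2 (O.XX _ _) (O.XX _ _) (O.XX _ _) (fun n => (O.XD 0 _ n).symm)
      (fun n => (O.XD 0 _ n).symm) (fun n => (O.XD 0 _ n).symm) z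

end

end Pool.Agent.H.MP_c30e5d_gt
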