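import Pool.Agent.H.MP_c30e5d_gt.Obj
import Pool.Agent.H.MP_c30e5d_gt.R3.Core

/-!
# Homotopy retracts of explicit models, Reidemeister 3 and far commutation
-/

namespace Pool.Agent.H.MP_c30e5d_gt

open R3

variable {A : Type} [CommRing A] {m : ℕ}

/-- `O` is a homotopy retract of `O'` (for the differentials `D 0`). -/
structure Ret (O O' : Obj A m) where
  F : O.M →ₗ[A] O'.M
  G : O'.M →ₗ[A] O.M
  H : O.M →ₗ[A] O.M
  FX : ∀ j z, F (O.X j z) = O'.X j (F z)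
  GX : ∀ j z, G (O'.X j z) = O.X j (G z)
  HX : ∀ j z, H (O.X j z) = O.X j (H z)
  FD : ∀ z, F (O.D 0 z) = O'.D 0 (F z)
  GD : ∀ z, G (O'.D 0 z) = O.D 0 (G z)
  Fpr : ∀ e z, F (O.pr e z) = O'.pr e (F z)
  Gpr : ∀ e z, G (O'.pr e z) = O.pr e (G z)
  Hpr : ∀ e z, O.pr e (H z) = H (O.pr (e + 1) z)
  Hpr0 : ∀ z, H (O.pr 0 z) = 0
  hom : ∀ z, z - G (F z) = O.D 0 (H z) + H (O.D 0 z)

/-- every object is a retract of itself -/
def Ret.refl (O : Obj A m) : Ret O O where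
  F := LinearMap.id
  G := LinearMap.id
  H := 0
  FX _ _ := rfl
  GX _ _ := rfl
  HX _ _ := by simp
  FD _ := rfl
  GD _ := rfl
  Fpr _ _ := rfl
  Gpr _ _ := rfl
  Hpr _ _ := by simp
  Hpr0 _ := by simp
  hom _ := by simp

theorem D0_cross (i : Fin m) (p q : Fin (m + 1)) (O : Obj A m) (z : (O.M × O.M) × O.M) :
    (cross i p q O).D 0 z =
      ((O.D 0 z.1.1, O.D 0 z.1.2), z.1.1 + O.X i.castSucc z.1.2 - O.D 0 z.2) := by
  rw [cross_D]; simp

/-- a bimodule map commutes with `BX` -/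
theorem BX_map {O O' : Obj A m} (F : O.M →ₗ[A] O'.M) (h : ∀ j z, F (O.X j z) = O'.X j (F z))
    (i : Fin m) (j : Fin (m + 1)) (z : O.M × O.M) :
    (F (BX O i j z).1, F (BX O i j z).2) = BX O' i j (F z.1, F z.2) := by
  by_cases h1 : j = i.castSucc
  · subst h1; simp [h]
  · by_cases h2 : j = i.succ
    · subst h2; simp [h]
    · rw [BX_other O i j h1 h2, BX_other O' i j h1 h2]; simp [h]

/-- crossings preserve retracts -/
def Ret.cross {O O' : Obj A m} (R : Ret O O') (i : Fin m) (p q p' q' : Fin (m + 1)) :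
    Ret (cross i p q O) (cross i p' q' O') where
  F := (R.F.prodMap R.F).prodMap R.F
  G := (R.G.prodMap R.G).prodMap R.G
  H := (R.H.prodMap R.H).prodMap (-R.H)
  FX j z := Prod.ext (BX_map R.F R.FX i j z.1) (R.FX j z.2)
  GX j z := Prod.ext (BX_map R.G R.GX i j z.1) (R.GX j z.2)
  HX j z := Prod.ext (BX_map R.H R.HX i j z.1) (by
    show (-R.H) (O.X j z.2) = O.X j ((-R.H) z.2)
    simp [R.HX])
  FD z := by
    change (O.M × O.M) × O.M at z
    rw [D0_cross]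
    show ((R.F (O.D 0 z.1.1), R.F (O.D 0 z.1.2)), R.F (z.1.1 + O.X i.castSucc z.1.2 - O.D 0 z.2)) =
      (MP_c30e5d_gt.cross i p' q' O').D 0 ((R.F z.1.1, R.F z.1.2), R.F z.2)
    rw [D0_cross]
    simp [R.FD, R.FX]
  GD z := by
    change (O'.M × O'.M) × O'.M at z
    rw [D0_cross]
    show ((R.G (O'.D 0 z.1.1), R.G (O'.D 0 z.1.2)),
        R.G (z.1.1 + O'.X i.castSucc z.1.2 - O'.D 0 z.2)) =
      (MP_c30e5d_gt.cross i p q O).D 0 ((R.G z.1.1, R.G z.1.2), R.G z.2)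
    rw [D0_cross]
    simp [R.GD, R.GX]
  Fpr e z := by
    change (O.M × O.M) × O.M at z
    rcases e with _ | e
    · rw [cross_pr_zero]
      show ((R.F (O.pr 0 z.1.1), R.F (O.pr 0 z.1.2)), R.F 0) =
        (MP_c30e5d_gt.cross i p' q' O').pr 0 ((R.F z.1.1, R.F z.1.2), R.F z.2)
      rw [cross_pr_zero]; simp [R.Fpr]
    · rw [cross_pr_succ]
      show ((R.F (O.pr (e + 1) z.1.1), R.F (O.pr (e + 1) z.1.2)), R.F (O.pr e z.2)) =
        (MP_c30e5d_gt.cross i p' q' O').pr (e + 1) ((R.F z.1.1, R.F z.1.2), R.F z.2)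
      rw [cross_pr_succ]; simp [R.Fpr]
  Gpr e z := by
    change (O'.M × O'.M) × O'.M at z
    rcases e with _ | e
    · rw [cross_pr_zero]
      show ((R.G (O'.pr 0 z.1.1), R.G (O'.pr 0 z.1.2)), R.G 0) =
        (MP_c30e5d_gt.cross i p q O).pr 0 ((R.G z.1.1, R.G z.1.2), R.G z.2)
      rw [cross_pr_zero]; simp [R.Gpr]
    · rw [cross_pr_succ]
      show ((R.G (O'.pr (e + 1) z.1.1), R.G (O'.pr (e + 1) z.1.2)), R.G (O'.pr e z.2)) =
        (MP_c30e5d_gt.cross i p q O).pr (e + 1) ((R.G z.1.1, R.G z.1.2), R.G z.2)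
      rw [cross_pr_succ]; simp [R.Gpr]
  Hpr e z := by
    change (O.M × O.M) × O.M at z
    rcases e with _ | e
    · rw [cross_pr_succ]
      show (MP_c30e5d_gt.cross i p q O).pr 0 ((R.H z.1.1, R.H z.1.2), -R.H z.2) =
        ((R.H (O.pr (0 + 1) z.1.1), R.H (O.pr (0 + 1) z.1.2)), -R.H (O.pr 0 z.2))
      rw [cross_pr_zero]; simp [R.Hpr, R.Hpr0]
    · rw [cross_pr_succ]
      show (MP_c30e5d_gt.cross i p q O).pr (e + 1) ((R.H z.1.1, R.H z.1.2), -R.H z.2) =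
        ((R.H (O.pr (e + 1 + 1) z.1.1), R.H (O.pr (e + 1 + 1) z.1.2)), -R.H (O.pr (e + 1) z.2))
      rw [cross_pr_succ]; simp [R.Hpr]
  Hpr0 z := by
    change (O.M × O.M) × O.M at z
    rw [cross_pr_zero]
    show ((R.H (O.pr 0 z.1.1), R.H (O.pr 0 z.1.2)), -R.H 0) = (((0 : O.M), (0 : O.M)), (0 : O.M))
    simp [R.Hpr0]
  hom z := by
    change (O.M × O.M) × O.M at z
    have e1 := D0_cross i p q O ((R.H z.1.1, R.H z.1.2), -R.H z.2)
    have e2 := D0_cross i p q O z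
    have h := R.hom
    refine Eq.trans ?_ (congrArg₂ (fun a b => (HAdd.hAdd a b : (O.M × O.M) × O.M)) e1.symm
      (congrArg (fun a => (((R.H.prodMap R.H).prodMap (-R.H)) a : (O.M × O.M) × O.M)) e2.symm))
    refine Prod.ext (Prod.ext ?_ ?_) ?_
    · exact h z.1.1
    · exact h z.1.2
    · show z.2 - R.G (R.F z.2) = (R.H z.1.1 + O.X i.castSucc (R.H z.1.2) - O.D 0 (-R.H z.2)) +
        -R.H (z.1.1 + O.X i.castSucc z.1.2 - O.D 0 z.2)
      rw [h z.2]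
      simp only [map_sub, map_add, map_neg, R.HX]
      abel

end Pool.Agent.H.MP_c30e5d_gt
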