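import Pool.Agent.H.MP_c30e5d_gt.Compare
import Pool.Agent.H.MP_c30e5d_gt.Graded
import Pool.Agent.H.MP_c30e5d_gt.R3.BRet
import Pool.Agent.H.MP_c30e5d_gt.R3.Far

/-!
# The homology `HHH` of a word does not change under braid relations
-/

namespace Pool.Agent.H.MP_c30e5d_gt

open MvPolynomial R3

section
variable {A : Type} [CommRing A] {m : ℕ}

/-- composition of retracts -/
def Ret.trans {O O' O'' : Obj A m} (R : Ret O O') (S : Ret O' O'') : Ret O O'' where
  F := S.F ∘ₗ R.F
  G := R.G ∘ₗ S.G
  H := R.H + R.G ∘ₗ S.H ∘ₗ R.F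
  FX j z := by simp only [LinearMap.comp_apply, R.FX, S.FX]
  GX j z := by simp only [LinearMap.comp_apply, R.GX, S.GX]
  HX j z := by
    simp only [LinearMap.add_apply, LinearMap.comp_apply, R.FX, S.HX, R.GX, R.HX, map_add]
  FD z := by simp only [LinearMap.comp_apply, R.FD, S.FD]
  GD z := by simp only [LinearMap.comp_apply, R.GD, S.GD]
  Fpr e z := by simp only [LinearMap.comp_apply, R.Fpr, S.Fpr]
  Gpr e z := by simp only [LinearMap.comp_apply, R.Gpr, S.Gpr]
  Hpr e z := by
    simp only [LinearMap.add_apply, LinearMap.comp_apply, map_add, R.Hpr, ← R.Gpr, S.Hpr, R.Fpr]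
  Hpr0 z := by
    simp only [LinearMap.add_apply, LinearMap.comp_apply, R.Hpr0, R.Fpr, S.Hpr0, map_zero,
      add_zero]
  hom z := by
    have h1 := R.hom z
    have h2 := congrArg R.G (S.hom (R.F z))
    simp only [map_sub, map_add, R.GD, ← R.FD] at h2
    simp only [LinearMap.add_apply, LinearMap.comp_apply, map_add]
    have e : z - R.G (S.G (S.F (R.F z))) =
        (z - R.G (R.F z)) + (R.G (R.F z) - R.G (S.G (S.F (R.F z)))) := by abel
    rw [e, h1, h2]
    abel

/-- words preserve retracts (the labels are irrelevant) -/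
def Ret.fw : (u : List (Fin m)) → (L L' : Equiv.Perm (Fin (m + 1))) → {O O' : Obj A m} →
    Ret O O' → Ret (Fw L u O) (Fw L' u O')
  | [], _, _, _, _, R => R
  | i :: u, L, L', _, _, R => (Ret.fw u (L * sw i) (L' * sw i) R).cross i _ _ _ _

end

section
variable {k : Type} [Field k] {m : ℕ}

/-- additive maps commuting with the variables and the constants are linear -/
theorem map_smul_of_vars {M N : Type} [AddCommGroup M] [AddCommGroup N] [Module (RR k m) M]
    [Module (RR k m) N] (f : M →+ N) (hX : ∀ j z, f ((X j : RR k m) • z) = (X j : RR k m) • f z)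
    (hC : ∀ (c : k) z, f ((C c : RR k m) • z) = (C c : RR k m) • f z) (a : RR k m) (z : M) :
    f (a • z) = a • f z := by
  induction a using MvPolynomial.induction_on generalizing z with
  | C c => exact hC c z
  | add p q hp hq => rw [add_smul, map_add, hp, hq, add_smul]
  | mul_X p j hp => rw [mul_smul, hp, hX, mul_smul]

/-- the linear map obtained from a map of explicit models -/
noncomputable def tmap {K K' : BimComplex k m} {O O' : Obj (RR k m) m} (T : K.M ≃+ O.M)
    (T' : K'.M ≃+ O'.M) (F : O.M →ₗ[RR k m] O'.M)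
    (h1 : ∀ j z, T ((X j : RR k m) • z) = O.X j (T z))
    (h1' : ∀ j z, T' ((X j : RR k m) • z) = O'.X j (T' z))
    (h3 : ∀ (c : k) z, T ((C c : RR k m) • z) = (C c : RR k m) • T z)
    (h3' : ∀ (c : k) z, T' ((C c : RR k m) • z) = (C c : RR k m) • T' z)
    (hF : ∀ j z, F (O.X j z) = O'.X j (F z)) : K.M →ₗ[RR k m] K'.M where
  toFun z := T'.symm (F (T z))
  map_add' z w := by rw [map_add, map_add, map_add]
  map_smul' a z := by
    refine map_smul_of_vars (T'.symm.toAddMonoidHom.comp (F.toAddMonoidHom.comp T.toAddMonoidHom))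
      ?_ ?_ a z
    · intro j z
      show T'.symm (F (T _)) = X j • T'.symm (F (T z))
      rw [h1, hF]
      apply T'.injective
      rw [T'.apply_symm_apply, h1', T'.apply_symm_apply]
    · intro c z
      show T'.symm (F (T _)) = C c • T'.symm (F (T z))
      rw [h3, map_smul]
      apply T'.injective
      rw [T'.apply_symm_apply, h3', T'.apply_symm_apply]

/-- transport of retracts -/
theorem bret_of_ret (w w' : List (Fin m)) (L L' : Equiv.Perm (Fin (m + 1)))
    (R : Ret (Fw L w (Obj.base fun j => (X j : RR k m)))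
      (Fw L' w' (Obj.base fun j => (X j : RR k m)))) :
    Nonempty (BRet (rouquier k w) (rouquier k w')) := by
  obtain ⟨T, h1, h2, h3, h4, h5⟩ := compare k w L
  obtain ⟨T', h1', h2', h3', h4', h5'⟩ := compare k w' L'
  refine ⟨{ f := tmap T T' R.F h1 h1' h3 h3' R.FX
            g := tmap T' T R.G h1' h1 h3' h3 R.GX
            h := tmap T T R.H h1 h1 h3 h3 R.HX
            fr := ?_, gr := ?_, hr := ?_, fd := ?_, gd := ?_, fpr := ?_, gpr := ?_, hpr := ?_,
            hpr0 := ?_, hom := ?_ }⟩
  · intro j z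
    apply T'.injective
    show T' (T'.symm (R.F (T _))) = T' ((rouquier k w').rmul j (T'.symm (R.F (T z))))
    rw [T'.apply_symm_apply, h2', T'.apply_symm_apply, h2, map_smul]
  · intro j z
    apply T.injective
    show T (T.symm (R.G (T' _))) = T ((rouquier k w).rmul j (T.symm (R.G (T' z))))
    rw [T.apply_symm_apply, h2, T.apply_symm_apply, h2', map_smul]
  · intro j z
    apply T.injective
    show T (T.symm (R.H (T _))) = T ((rouquier k w).rmul j (T.symm (R.H (T z))))
    rw [T.apply_symm_apply, h2, h2, T.apply_symm_apply, map_smul]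
  · intro z
    apply T'.injective
    show T' (T'.symm (R.F (T _))) = T' ((rouquier k w').d (T'.symm (R.F (T z))))
    rw [T'.apply_symm_apply, h4', T'.apply_symm_apply, h4, R.FD]
  · intro z
    apply T.injective
    show T (T.symm (R.G (T' _))) = T ((rouquier k w).d (T.symm (R.G (T' z))))
    rw [T.apply_symm_apply, h4, T.apply_symm_apply, h4', R.GD]
  · intro e z
    apply T'.injective
    show T' (T'.symm (R.F (T _))) = T' ((rouquier k w').pr e (T'.symm (R.F (T z))))
    rw [T'.apply_symm_apply, h5', T'.apply_symm_apply, h5, R.Fpr]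
  · intro e z
    apply T.injective
    show T (T.symm (R.G (T' _))) = T ((rouquier k w).pr e (T.symm (R.G (T' z))))
    rw [T.apply_symm_apply, h5, T.apply_symm_apply, h5', R.Gpr]
  · intro e z
    apply T.injective
    show T ((rouquier k w).pr e (T.symm (R.H (T z)))) = T (T.symm (R.H (T _)))
    rw [h5, T.apply_symm_apply, T.apply_symm_apply, h5, R.Hpr]
  · intro z
    apply T.injective
    show T (T.symm (R.H (T _))) = T 0
    rw [T.apply_symm_apply, h5, R.Hpr0, map_zero]
  · intro z
    apply T.injective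
    show T (z - T.symm (R.G (T' (T'.symm (R.F (T z)))))) =
      T ((rouquier k w).d (T.symm (R.H (T z))) + T.symm (R.H (T ((rouquier k w).d z))))
    rw [map_sub, map_add, T'.apply_symm_apply, T.apply_symm_apply, T.apply_symm_apply, h4, h4,
      T.apply_symm_apply]
    exact R.hom (T z)

/-- the homology with the base ring acting on the right: `pr` commutes with `X` -/
theorem pr_X_fw (L : Equiv.Perm (Fin (m + 1))) (w : List (Fin m)) (e : ℕ) (l : Fin (m + 1))
    (z : (Fw L w (Obj.base fun j => (X j : RR k m))).M) :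
    (Fw L w (Obj.base fun j => (X j : RR k m))).pr e
      ((Fw L w (Obj.base fun j => (X j : RR k m))).X l z) =
    (Fw L w (Obj.base fun j => (X j : RR k m))).X l
      ((Fw L w (Obj.base fun j => (X j : RR k m))).pr e z) :=
  (graded L w (fun j => (X j : RR k m))).1 e l z

/-- elementary relations between positive words -/
inductive Step (m : ℕ) : List (Fin m) → List (Fin m) → Prop
  | r3 (u v : List (Fin m)) (i j : Fin m) (h : (i : ℕ) + 1 = j) :
      Step m (u ++ [i, j, i] ++ v) (u ++ [j, i, j] ++ v)
  | r3' (u v : List (Fin m)) (i j : Fin m) (h : (i : ℕ) + 1 = j) :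
      Step m (u ++ [j, i, j] ++ v) (u ++ [i, j, i] ++ v)
  | far (u v : List (Fin m)) (i j : Fin m) (h : (i : ℕ) + 2 ≤ j ∨ (j : ℕ) + 2 ≤ i) :
      Step m (u ++ [i, j] ++ v) (u ++ [j, i] ++ v)

theorem castSucc_eq_succ {i j : Fin m} (h : (i : ℕ) + 1 = j) : j.castSucc = i.succ := by
  apply Fin.ext
  simp [← h]

theorem bret_of_step {w w' : List (Fin m)} (h : Step m w w') :
    Nonempty (BRet (rouquier k w) (rouquier k w')) := by
  cases h with
  | r3 u v i j h =>
    refine bret_of_ret _ _ 1 1 ?_
    rw [List.append_assoc, List.append_assoc, Fw_append, Fw_append, Fw_append, Fw_append]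
    refine Ret.fw u 1 1 ?_
    exact (ret_iji (castSucc_eq_succ h) _ _ _ _ _ _ 0 0 0 0 0 0 _
      (fun e l z => pr_X_fw _ v e l z)).trans
      (((((Ret.fw v _ _ (Ret.refl _)).cross j 0 0 _ _).cross i 0 0 _ _).cross j 0 0 _ _))
  | r3' u v i j h =>
    refine bret_of_ret _ _ 1 1 ?_
    rw [List.append_assoc, List.append_assoc, Fw_append, Fw_append, Fw_append, Fw_append]
    refine Ret.fw u 1 1 ?_
    exact (ret_jij (castSucc_eq_succ h) _ _ _ _ _ _ 0 0 0 0 0 0 _
      (fun e l z => pr_X_fw _ v e l z)).trans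
      (((((Ret.fw v _ _ (Ret.refl _)).cross i 0 0 _ _).cross j 0 0 _ _).cross i 0 0 _ _))
  | far u v i j h =>
    refine bret_of_ret _ _ 1 1 ?_
    rw [List.append_assoc, List.append_assoc, Fw_append, Fw_append, Fw_append, Fw_append]
    refine Ret.fw u 1 1 ?_
    refine (ret_far _ _ _ _ _ ?_ ?_ ?_ ?_).trans
      ((((Ret.fw v _ _ (Ret.refl _)).cross i _ _ _ _).cross j _ _ _ _))
    all_goals
      intro e
      have e1 := congrArg Fin.val e
      simp at e1
      omega

/-- a step preserves the nonvanishing of `HHH` -/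
theorem Step.nontrivial {w w' : List (Fin m)} (h : Step m w w') (p e : ℕ)
    (hn : Nontrivial (HHH k m w p e)) : Nontrivial (HHH k m w' p e) := by
  obtain ⟨R⟩ := bret_of_step (k := k) h
  exact R.nontrivial p e hn

end

end Pool.Agent.H.MP_c30e5d_gt
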