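import Pool.Agent.H.MP_c30e5d_gt.Braid
import Pool.Agent.H.MP_c30e5d_gt.R3.Transport

/-!
# The word `jmWord` and the literal word of `FT_2^{a_2} ⋯ FT_n^{a_n}` are related by positive
braid relations
-/

namespace Pool.Agent.H.MP_c30e5d_gt

set_option linter.all false

/-- positive words up to braid relations -/
def bset (m : ℕ) : Setoid (List (Fin m)) where
  r := Relation.ReflTransGen (Step m)
  iseqv := by
    have hs : ∀ {v w : List (Fin m)}, Step m v w → Step m w v := by
      intro v w h
      cases h with
      | r3 u v i j h => exact Step.r3' u v i j h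
      | r3' u v i j h => exact Step.r3 u v i j h
      | far u v i j h => exact Step.far u v j i h.symm
    refine ⟨fun _ => Relation.ReflTransGen.refl, ?_, fun h1 h2 => h1.trans h2⟩
    intro v w h
    induction h with
    | refl => exact Relation.ReflTransGen.refl
    | tail _ h ih => exact Relation.ReflTransGen.head (hs h) ih

theorem Step.append_left {m : ℕ} (x : List (Fin m)) {v w : List (Fin m)} (h : Step m v w) :
    Step m (x ++ v) (x ++ w) := by
  cases h with
  | r3 u v i j h =>
    have := Step.r3 (x ++ u) v i j h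
    simpa only [List.append_assoc] using this
  | r3' u v i j h =>
    have := Step.r3' (x ++ u) v i j h
    simpa only [List.append_assoc] using this
  | far u v i j h =>
    have := Step.far (x ++ u) v i j h
    simpa only [List.append_assoc] using this

theorem Step.append_right {m : ℕ} (x : List (Fin m)) {v w : List (Fin m)} (h : Step m v w) :
    Step m (v ++ x) (w ++ x) := by
  cases h with
  | r3 u v i j h =>
    have := Step.r3 u (v ++ x) i j h
    simpa only [List.append_assoc] using this
  | r3' u v i j h =>
    have := Step.r3' u (v ++ x) i j h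
    simpa only [List.append_assoc] using this
  | far u v i j h =>
    have := Step.far u (v ++ x) i j h
    simpa only [List.append_assoc] using this

/-- the positive braid monoid -/
def BM (m : ℕ) : Type := Quotient (bset m)

instance (m : ℕ) : Monoid (BM m) where
  mul := Quotient.map₂ (· ++ ·) (by
    intro v v' hv w w' hw
    have h1 : Relation.ReflTransGen (Step m) (v ++ w) (v' ++ w) := by
      change Relation.ReflTransGen (Step m) v v' at hv
      induction hv with
      | refl => exact Relation.ReflTransGen.refl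
      | tail _ h ih => exact ih.tail (h.append_right w)
    have h2 : Relation.ReflTransGen (Step m) (v' ++ w) (v' ++ w') := by
      change Relation.ReflTransGen (Step m) w w' at hw
      induction hw with
      | refl => exact Relation.ReflTransGen.refl
      | tail _ h ih => exact ih.tail (h.append_left v')
    exact h1.trans h2)
  one := Quotient.mk _ []
  mul_assoc := by
    rintro ⟨a⟩ ⟨b⟩ ⟨c⟩
    exact congrArg (Quotient.mk (bset m)) (List.append_assoc a b c)
  one_mul := by
    rintro ⟨a⟩
    rfl
  mul_one := by
    rintro ⟨a⟩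
    exact congrArg (Quotient.mk (bset m)) (List.append_nil a)

/-- the element of a positive word -/
def bm {m : ℕ} (w : List (Fin m)) : BM m := Quotient.mk (bset m) w

theorem bm_append {m : ℕ} (v w : List (Fin m)) : bm (v ++ w) = bm v * bm w := rfl
theorem bm_nil (m : ℕ) : bm ([] : List (Fin m)) = 1 := rfl
theorem bm_cons {m : ℕ} (i : Fin m) (w : List (Fin m)) : bm (i :: w) = bm [i] * bm w := rfl

theorem bm_far {m : ℕ} (i j : Fin m) (h : (i : ℕ) + 2 ≤ (j : ℕ)) :
    bm [i] * bm [j] = bm [j] * bm [i] :=
  Quotient.sound (Relation.ReflTransGen.single (Step.far [] [] i j (Or.inl h)))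

theorem bm_braid {m : ℕ} (i j : Fin m) (h : (i : ℕ) + 1 = (j : ℕ)) :
    bm [i] * bm [j] * bm [i] = bm [j] * bm [i] * bm [j] :=
  Quotient.sound (Relation.ReflTransGen.single (Step.r3 [] [] i j h))

section aux

variable {G : Type*} [Monoid G] (s : ℕ → G)

/-- `s_0 ⋯ s_{k-1}` -/
def bm_U : ℕ → G
  | 0 => 1
  | k + 1 => bm_U k * s k

/-- `s_{k-1} ⋯ s_{k-j}` -/
def bm_D : ℕ → ℕ → G
  | _, 0 => 1
  | 0, _ + 1 => 1
  | k + 1, j + 1 => s k * bm_D k j

variable {s} {m : ℕ} (hc : ∀ i j, i + 2 ≤ j → j < m → s i * s j = s j * s i)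
  (hb : ∀ i, i + 1 < m → s i * s (i + 1) * s i = s (i + 1) * s i * s (i + 1))

include hc in
theorem bm_U_comm : ∀ i j, i + 1 ≤ j → j < m → bm_U s i * s j = s j * bm_U s i := by
  intro i
  induction i with
  | zero => intro j _ _; simp [bm_U]
  | succ i ih =>
    intro j h1 h2
    show bm_U s i * s i * s j = s j * (bm_U s i * s i)
    rw [mul_assoc, hc i j (by omega) h2, ← mul_assoc, ih j (by omega) h2, mul_assoc]

include hc hb in
/-- step (1) -/
theorem bm_one : ∀ k i, i + 1 < k → k ≤ m →
    bm_U s k * s i = s (i + 1) * bm_U s k := by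
  intro k
  induction k with
  | zero => intro i h; omega
  | succ k ih =>
    intro i h1 h2
    rcases Nat.lt_or_ge (i + 1) k with h | h
    · show bm_U s k * s k * s i = s (i + 1) * (bm_U s k * s k)
      rw [mul_assoc, ← hc i k (by omega) (by omega), ← mul_assoc, ih i h (by omega), mul_assoc]
    · have hk : k = i + 1 := by omega
      subst hk
      show bm_U s i * s i * s (i + 1) * s i =
        s (i + 1) * (bm_U s i * s i * s (i + 1))
      have e1 : bm_U s i * s i * s (i + 1) * s i =
          bm_U s i * (s i * s (i + 1) * s i) := by simp only [mul_assoc]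
      have e2 : bm_U s i * (s (i + 1) * s i * s (i + 1)) =
          (bm_U s i * s (i + 1)) * s i * s (i + 1) := by simp only [mul_assoc]
      rw [e1, hb i (by omega), e2, bm_U_comm hc i (i + 1) le_rfl (by omega)]
      simp only [mul_assoc]

include hc hb in
theorem bm_DU (k : ℕ) (hk : k + 1 ≤ m) : ∀ j q, j ≤ q → q ≤ k →
    bm_D s (q + 1) j * bm_U s (k + 1) = bm_U s (k + 1) * bm_D s q j := by
  intro j
  induction j with
  | zero => intro q _ _; simp [bm_D]
  | succ j ih =>
    intro q h1 h2
    obtain ⟨q', rfl⟩ : ∃ q', q = q' + 1 := ⟨q - 1, by omega⟩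
    show s (q' + 1) * bm_D s (q' + 1) j * bm_U s (k + 1) =
      bm_U s (k + 1) * (s q' * bm_D s q' j)
    rw [mul_assoc, ih q' (by omega) (by omega), ← mul_assoc,
      ← bm_one hc hb (k + 1) q' (by omega) hk, mul_assoc]

include hc hb in
/-- step (2) -/
theorem bm_two (k : ℕ) (hk : k + 1 ≤ m) : ∀ j, j ≤ k + 1 →
    bm_U s (k + 1) ^ j = bm_U s k ^ j * bm_D s (k + 1) j := by
  intro j
  induction j with
  | zero => intro _; simp [bm_D]
  | succ j ih =>
    intro h
    rw [pow_succ, ih (by omega), mul_assoc, bm_DU hc hb k hk j k (by omega) le_rfl,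
      pow_succ (bm_U s k) j]
    show bm_U s k ^ j * (bm_U s k * s k * bm_D s k j) =
      bm_U s k ^ j * bm_U s k * (s k * bm_D s k j)
    simp only [mul_assoc]

theorem bm_U_list (s : ℕ → G) : ∀ k, ((List.range k).map s).prod = bm_U s k := by
  intro k
  induction k with
  | zero => simp [bm_U]
  | succ k ih => rw [List.range_succ, List.map_append, List.prod_append, ih]; simp [bm_U]

theorem bm_D_list (s : ℕ → G) :
    ∀ k, ((List.range k).reverse.map s).prod = bm_D s k k := by
  intro k
  induction k with
  | zero => simp [bm_D]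
  | succ k ih =>
    rw [List.range_succ, List.reverse_append, List.map_append, List.prod_append, ih]
    simp [bm_D]

end aux

/-- the generators, indexed by the natural numbers -/
def bm_s (m n : ℕ) : BM m :=
  if h : n < m then bm [⟨n, h⟩] else 1

theorem bm_of {m : ℕ} (w : List (Fin m)) :
    bm w = ((w.map Fin.val).map (bm_s m)).prod := by
  induction w with
  | nil => rfl
  | cons i w ih =>
    rw [bm_cons, ih, List.map_cons, List.map_cons, List.prod_cons]
    simp [bm_s]

theorem bm_hc (m : ℕ) (i j : ℕ) (h1 : i + 2 ≤ j) (h2 : j < m) :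
    bm_s m i * bm_s m j = bm_s m j * bm_s m i := by
  have hi : i < m := by omega
  simp only [bm_s, dif_pos hi, dif_pos h2]
  exact bm_far _ _ h1

theorem bm_hb (m : ℕ) (i : ℕ) (h1 : i + 1 < m) :
    bm_s m i * bm_s m (i + 1) * bm_s m i = bm_s m (i + 1) * bm_s m i * bm_s m (i + 1) := by
  have hi : i < m := by omega
  simp only [bm_s, dif_pos hi, dif_pos h1]
  exact bm_braid _ _ rfl

/-- `FT_k` in the positive braid monoid -/
def FTm (m k : ℕ) : BM m := bm (cyc m k) ^ k

theorem FTm_succ (m j : ℕ) (h1 : 1 ≤ j) (h2 : j ≤ m) :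
    FTm m (j + 1) = FTm m j * bm (JMw m j) := by
  obtain ⟨k, rfl⟩ : ∃ k, j = k + 1 := ⟨j - 1, by omega⟩
  have e1 : bm (cyc m (k + 1 + 1)) = bm_U (bm_s m) (k + 1) := by
    rw [bm_of, cyc, braida_val m (k + 1) h2 _ (fun i => by simp), bm_U_list]
  have e2 : bm (cyc m (k + 1)) = bm_U (bm_s m) k := by
    rw [bm_of, cyc, braida_val m k (by omega) _ (fun i => by simp), bm_U_list]
  have e3 : bm (JMw m (k + 1)) =
      bm_D (bm_s m) (k + 1) (k + 1) * bm_U (bm_s m) (k + 1) := by
    rw [bm_of, JMw, List.map_append, List.map_append, List.prod_append, down, up,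
      List.map_reverse, braida_val m (k + 1) h2 _ (fun i => by simp),
      bm_U_list, bm_D_list]
  unfold FTm
  rw [e1, e2, e3, pow_succ,
    bm_two (bm_hc m) (bm_hb m) k h2 (k + 1) le_rfl, mul_assoc]

theorem bm_word {m : ℕ} (j : Fin m) (w : List (Fin m))
    (h : ∀ x ∈ w, (x : ℕ) + 2 ≤ (j : ℕ)) : Commute (bm [j]) (bm w) := by
  induction w with
  | nil => exact Commute.one_right _
  | cons x w ih =>
    rw [bm_cons x w]
    refine Commute.mul_right ?_ (ih fun y hy => h y (List.mem_cons_of_mem _ hy))
    exact (bm_far x j (h x (List.mem_cons_self ..))).symm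

theorem bm_J_succ (m j : ℕ) (hj : j < m) :
    bm (JMw m (j + 1)) = bm [⟨j, hj⟩] * bm (JMw m j) * bm [⟨j, hj⟩] := by
  unfold JMw
  rw [braidb_up m 0 j (Nat.zero_le _) hj, braidb_down m 0 j (Nat.zero_le _) hj,
    List.cons_append, bm_cons, ← List.append_assoc, bm_append, mul_assoc]

theorem JMm_comm (m j : ℕ) (i : Fin m) (hi : (i : ℕ) + 1 < j) (hj : j ≤ m) :
    Commute (bm [i]) (bm (JMw m j)) := by
  induction j with
  | zero => omega
  | succ j ih =>
    have hj' : j < m := hj
    rw [bm_J_succ m j hj']
    by_cases h : (i : ℕ) + 1 < j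
    · have h1 := ih h hj'.le
      have h2 : Commute (bm [i]) (bm [(⟨j, hj'⟩ : Fin m)]) :=
        bm_far i ⟨j, hj'⟩ (by simp only; omega)
      exact (h2.mul_right h1).mul_right h2
    · have h3 : (i : ℕ) + 1 = j := by omega
      subst h3
      have h4 : (i : ℕ) < m := i.2
      have h5 : (⟨(i : ℕ), h4⟩ : Fin m) = i := rfl
      rw [bm_J_succ m i h4, h5]
      set s := bm [i] with hs
      set t := bm [(⟨(i : ℕ) + 1, hj'⟩ : Fin m)] with ht
      set x := bm (JMw m i) with hx
      have hb : s * t * s = t * s * t := bm_braid i ⟨(i : ℕ) + 1, hj'⟩ rfl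
      have hc : t * x = x * t := bm_word ⟨(i : ℕ) + 1, hj'⟩ (JMw m i) (by
        intro y hy
        have := braidb_J_letters m i y hy
        simp only
        omega)
      show s * (t * (s * x * s) * t) = t * (s * x * s) * t * s
      calc s * (t * (s * x * s) * t) = s * t * s * x * s * t := by simp only [mul_assoc]
        _ = t * s * (t * x) * s * t := by rw [hb]; simp only [mul_assoc]
        _ = t * s * x * (t * s * t) := by rw [hc]; simp only [mul_assoc]
        _ = t * (s * x * s) * t * s := by rw [← hb]; simp only [mul_assoc]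

theorem bm_flatten {m : ℕ} (L : List (List (Fin m))) :
    bm L.flatten = (L.map bm).prod := by
  induction L with
  | nil => rfl
  | cons w L ih => rw [List.flatten_cons, bm_append, ih, List.map_cons, List.prod_cons]

theorem bm_word_comm (m j : ℕ) (hj : j ≤ m) (w : List (Fin m))
    (h : ∀ x ∈ w, (x : ℕ) + 1 < j) : Commute (bm w) (bm (JMw m j)) := by
  induction w with
  | nil => exact Commute.one_left _
  | cons x w ih =>
    rw [bm_cons]
    refine Commute.mul_left ?_ (ih fun y hy => h y (List.mem_cons_of_mem _ hy))
    exact JMm_comm m j x (h x (List.mem_cons_self ..)) hj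

theorem bm_J_comm (m i j : ℕ) (hi : i ≤ m) (hj : j ≤ m) :
    Commute (bm (JMw m i)) (bm (JMw m j)) := by
  rcases lt_trichotomy i j with h | h | h
  · refine bm_word_comm m j hj _ fun x hx => ?_
    have := braidb_J_letters m i x hx
    omega
  · subst h
    exact Commute.refl _
  · refine (bm_word_comm m i hi _ fun x hx => ?_).symm
    have := braidb_J_letters m j x hx
    omega

theorem bm_FT (m n : ℕ) (hn : n ≤ m) :
    FTm m (n + 1) = ((List.range n).map fun j => bm (JMw m (j + 1))).prod := by
  induction n with
  | zero =>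
    have h0 : cyc m 1 = [] := by
      unfold cyc
      rw [List.filter_eq_nil_iff]
      intro x _
      simp
    simp [FTm, h0, bm_nil]
  | succ n ih =>
    rw [FTm_succ m (n + 1) (by omega) hn, ih (by omega)]
    simp only [List.range_succ, List.map_append, List.map_cons, List.map_nil,
      List.prod_append, List.prod_cons, List.prod_nil, mul_one]

theorem bm_main (m : ℕ) (a : ℕ → ℕ) (n : ℕ) (hn : n ≤ m) :
    ((List.range n).map fun j => FTm m (j + 2) ^ a (j + 2)).prod =
      ((List.range n).map fun j =>
        bm (JMw m (j + 1)) ^ (∑ k ∈ Finset.Ioc (j + 1) (n + 1), a k)).prod := by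
  induction n with
  | zero => simp
  | succ n ih =>
    have h1 := ih (by omega)
    have hc : ∀ i j, i < n + 1 → j < n + 1 →
        Commute (bm (JMw m (i + 1))) (bm (JMw m (j + 1))) := fun i j hi hj =>
      bm_J_comm m (i + 1) (j + 1) (by omega) (by omega)
    have h2 : FTm m (n + 2) ^ a (n + 2) = ((List.range n).map fun j =>
        bm (JMw m (j + 1)) ^ a (n + 2)).prod * bm (JMw m (n + 1)) ^ a (n + 2) := by
      rw [bm_FT m (n + 1) hn, braid_range_pow (n + 1) _ _ hc]
      simp only [List.range_succ, List.map_append, List.map_cons, List.map_nil,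
        List.prod_append, List.prod_cons, List.prod_nil, mul_one]
    rw [List.range_succ, List.map_append, List.prod_append, h1, List.map_cons, List.map_nil,
      List.prod_cons, List.prod_nil, mul_one, h2, ← mul_assoc, braid_range_mul n _ _
        (fun i j hi hj => (hc i j (by omega) (by omega)).pow_pow _ _)]
    rw [List.map_append, List.prod_append, List.map_cons, List.map_nil, List.prod_cons,
      List.prod_nil, mul_one]
    congr 1
    · congr 1
      apply List.map_congr_left
      intro j hj
      have hj' := List.mem_range.1 hj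
      rw [← pow_add, ← Finset.sum_Ioc_succ_top (by omega : j + 1 ≤ n + 1)]
    · rw [Finset.sum_Ioc_succ_top (by omega : n + 1 ≤ n + 1)]
      simp

/-- The literal word `((s_1)^2)^{a_2} ((s_1 s_2)^3)^{a_3} ⋯ ((s_1 ⋯ s_m)^{m+1})^{a_{m+1}}`. -/
def ftWord (m : ℕ) (a : ℕ → ℕ) : List (Fin m) :=
  ((List.range m).map fun j =>
    (List.replicate (a (j + 2)) (List.replicate (j + 2) (cyc m (j + 2))).flatten).flatten).flatten

theorem bm_jmWord (m : ℕ) (a b : ℕ → ℕ)
    (hb : ∀ j, 1 ≤ j → j ≤ m → b j = ∑ k ∈ Finset.Ioc j (m + 1), a k) :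
    bm (jmWord m b) = bm (ftWord m a) := by
  have h1 : bm (jmWord m b) =
      ((List.range m).map fun j => bm (JMw m (j + 1)) ^ b (j + 1)).prod := by
    unfold jmWord
    rw [bm_flatten, List.map_map]
    congr 1
    apply List.map_congr_left
    intro j _
    simp only [Function.comp_apply]
    rw [bm_flatten, List.map_replicate, List.prod_replicate]
  have h2 : bm (ftWord m a) = ((List.range m).map fun j => FTm m (j + 2) ^ a (j + 2)).prod := by
    unfold ftWord
    rw [bm_flatten, List.map_map]
    congr 1
    apply List.map_congr_left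
    intro j _
    simp only [Function.comp_apply]
    rw [bm_flatten, List.map_replicate, List.prod_replicate, bm_flatten, List.map_replicate,
      List.prod_replicate]
    rfl
  rw [h1, h2, bm_main m a m le_rfl]
  congr 1
  apply List.map_congr_left
  intro j hj
  have hj' := List.mem_range.1 hj
  rw [hb (j + 1) (by omega) (by omega)]

/-- the braid of the literal word -/
theorem braidOf_ftWord (m : ℕ) (a : ℕ → ℕ) : braidOf (ftWord m a) = twistProduct m a := by
  unfold ftWord twistProduct
  rw [braid_flatten, List.map_map]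
  congr 1
  apply List.map_congr_left
  intro j _
  simp only [Function.comp_apply]
  rw [braid_flatten, List.map_replicate, List.prod_replicate, braid_flatten, List.map_replicate,
    List.prod_replicate]
  rfl

/-- `HHH` of positive words which represent the same element of the positive braid monoid -/
theorem nontrivial_of_bm {k : Type} [Field k] {m : ℕ} {v w : List (Fin m)} (h : bm v = bm w)
    (p e : ℕ) (hn : Nontrivial (HHH k m v p e)) : Nontrivial (HHH k m w p e) := by
  have h1 : Relation.ReflTransGen (Step m) v w := Quotient.exact h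
  clear h
  induction h1 with
  | refl => exact hn
  | tail _ h ih => exact h.nontrivial p e ih

/-- from the word of Jucys-Murphy braids to the literal word -/
theorem nontrivial_literal {k : Type} [Field k] (m : ℕ) (a b : ℕ → ℕ)
    (hb : ∀ j, 1 ≤ j → j ≤ m → b j = ∑ k ∈ Finset.Ioc j (m + 1), a k) (p e : ℕ)
    (hn : Nontrivial (HHH k m (jmWord m b) p e)) : Nontrivial (HHH k m (ftWord m a) p e) :=
  nontrivial_of_bm (bm_jmWord m a b hb) p e hn

end Pool.Agent.H.MP_c30e5d_gt
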